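import Mathlib

/-!
# A combination of roots of unity in the upper half plane
-/

open Finset

namespace Pool.Agent.GP.NV2

theorem root_pow (mT i : ℕ) (hmT : 0 < mT) :
    Complex.exp (2 * Real.pi * Complex.I / ((2 * mT : ℕ) : ℂ)) ^ i =
      ((Real.cos (Real.pi * i / mT) : ℝ) : ℂ) + ((Real.sin (Real.pi * i / mT) : ℝ) : ℂ) *
        Complex.I := by
  have h0 : (mT : ℂ) ≠ 0 := by exact_mod_cast hmT.ne'
  rw [← Complex.exp_nat_mul, Complex.ofReal_cos, Complex.ofReal_sin, ← Complex.exp_mul_I]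
  congr 1
  push_cast
  field_simp

theorem geom_unique {V : Type*} {mT L dstar : ℕ} (hmT : 0 < mT) (hL : dstar < L)
    (h0 : 0 < dstar) (J : Finset V) (ι : V → ℕ) (hι : ∀ v ∈ J, ι v < mT) {d i0 : ℕ}
    (hi0 : i0 < mT)
    (h : (d : ℂ) * Complex.exp (2 * Real.pi * Complex.I / ((2 * mT : ℕ) : ℂ)) ^ i0 +
      L * ∑ v ∈ J, Complex.exp (2 * Real.pi * Complex.I / ((2 * mT : ℕ) : ℂ)) ^ (ι v) = dstar) :
    J = ∅ ∧ d = dstar := by
  have hmTr : (0 : ℝ) < mT := by exact_mod_cast hmT
  have hang : ∀ i, i < mT → 0 ≤ Real.pi * i / mT ∧ Real.pi * i / mT < Real.pi := by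
    intro i hi
    constructor
    · positivity
    · rw [div_lt_iff₀ hmTr]
      have : (i : ℝ) < mT := by exact_mod_cast hi
      exact mul_lt_mul_of_pos_left this Real.pi_pos
  have hsin : ∀ i, i < mT → 0 ≤ Real.sin (Real.pi * i / mT) := fun i hi =>
    Real.sin_nonneg_of_nonneg_of_le_pi (hang i hi).1 (hang i hi).2.le
  have hsin0 : ∀ i, i < mT → Real.sin (Real.pi * i / mT) = 0 → i = 0 := by
    intro i hi hs
    by_contra hne
    have hpos : 0 < Real.pi * i / mT := by
      have : (0 : ℝ) < i := by exact_mod_cast Nat.pos_of_ne_zero hne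
      have := Real.pi_pos
      positivity
    exact (Real.sin_pos_of_pos_of_lt_pi hpos (hang i hi).2).ne' hs
  simp only [root_pow mT _ hmT] at h
  have him := congrArg Complex.im h
  have hre := congrArg Complex.re h
  simp only [Finset.mul_sum, Complex.add_im, Complex.add_re, Complex.im_sum, Complex.re_sum] at him hre
  simp only [Complex.mul_im, Complex.mul_re, Complex.add_im, Complex.add_re, Complex.ofReal_re,
    Complex.ofReal_im, Complex.I_re, Complex.I_im, Complex.natCast_re, Complex.natCast_im, mul_zero,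
    mul_one, zero_mul, add_zero, zero_add, sub_zero] at him hre
  have hLpos : (0 : ℝ) < L := by exact_mod_cast lt_of_le_of_lt (Nat.zero_le _) hL
  have hterm : ∀ v ∈ J, 0 ≤ (L : ℝ) * Real.sin (Real.pi * (ι v) / mT) := fun v hv =>
    mul_nonneg hLpos.le (hsin _ (hι v hv))
  have hsum0 := Finset.sum_nonneg hterm
  have hd0 : 0 ≤ (d : ℝ) * Real.sin (Real.pi * i0 / mT) :=
    mul_nonneg (Nat.cast_nonneg _) (hsin _ hi0)
  have hd1 : (d : ℝ) * Real.sin (Real.pi * i0 / mT) = 0 := by linarith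
  have hs1 : ∑ v ∈ J, (L : ℝ) * Real.sin (Real.pi * (ι v) / mT) = 0 := by linarith
  have hι0 : ∀ v ∈ J, ι v = 0 := by
    intro v hv
    have h1 := (Finset.sum_eq_zero_iff_of_nonneg hterm).1 hs1 v hv
    exact hsin0 _ (hι v hv) ((mul_eq_zero.1 h1).resolve_left hLpos.ne')
  have hre2 : ∑ v ∈ J, (L : ℝ) * Real.cos (Real.pi * (ι v) / mT) = L * J.card := by
    have : ∀ v ∈ J, (L : ℝ) * Real.cos (Real.pi * (ι v) / mT) = L := by
      intro v hv
      rw [hι0 v hv]
      simp
    rw [Finset.sum_congr rfl this, Finset.sum_const, nsmul_eq_mul]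
    ring
  rw [hre2] at hre
  have hLd : (dstar : ℝ) < L := by exact_mod_cast hL
  have hdpos : (0 : ℝ) < dstar := by exact_mod_cast h0
  rcases mul_eq_zero.1 hd1 with h1 | h1
  · -- `d = 0`
    exfalso
    rw [h1, zero_mul, zero_add] at hre
    rcases Nat.eq_zero_or_pos J.card with h2 | h2
    · rw [h2] at hre
      simp at hre
      rw [← hre] at hdpos
      exact lt_irrefl _ hdpos
    · have h3 : (1 : ℝ) ≤ J.card := by exact_mod_cast h2
      nlinarith
  · have hi00 := hsin0 i0 hi0 h1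
    rw [hi00] at hre
    simp only [Nat.cast_zero, mul_zero, zero_div, Real.cos_zero, mul_one] at hre
    have hcard : J.card = 0 := by
      by_contra hne
      have h3 : (1 : ℝ) ≤ J.card := by exact_mod_cast Nat.pos_of_ne_zero hne
      have h4 : (0 : ℝ) ≤ d := Nat.cast_nonneg _
      nlinarith
    refine ⟨Finset.card_eq_zero.1 hcard, ?_⟩
    rw [hcard] at hre
    simp only [Nat.cast_zero, mul_zero, add_zero] at hre
    exact_mod_cast hre

end Pool.Agent.GP.NV2
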