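import Pool.Agent.GP.Basic

/-!
# Small integral combinations of roots of unity vanishing modulo a large number
-/

open Finset NumberField

namespace Pool.Agent.GP.NV2

/-- If an integral polynomial `Q` bounded by `B` on the unit circle vanishes at a root `t` of the `N`-th
cyclotomic polynomial modulo `M > B ^ φ(N)` then it vanishes at all primitive `N`-th roots of unity. -/
theorem cyclo_small_aux {N M : ℕ} (hN : 0 < N) (K : Type) [Field K] [NumberField K]
    [NeZero N] [IsCyclotomicExtension {N} ℚ K] (t : ZMod M)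
    (ht : (Polynomial.cyclotomic N (ZMod M)).eval t = 0) (Q : Polynomial ℤ)
    (hQ : Polynomial.aeval t Q = 0) (B : ℕ) (hB : ∀ w : ℂ, ‖w‖ = 1 → ‖Polynomial.aeval w Q‖ ≤ B)
    (hM : B ^ N.totient < M) {z : ℂ} (hz : IsPrimitiveRoot z N) : Polynomial.aeval z Q = 0 := by
  have hζ := IsCyclotomicExtension.zeta_spec N ℚ K
  set ζ := IsCyclotomicExtension.zeta N ℚ K with hζdef
  let x : 𝓞 K := Polynomial.aeval hζ.toInteger Q
  have hxK : (x : K) = Polynomial.aeval ζ Q := by
    have h1 := Polynomial.aeval_algebraMap_apply K hζ.toInteger Q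
    exact h1.symm
  -- the reduction map
  have hmin : minpoly ℤ hζ.integralPowerBasis.gen = Polynomial.cyclotomic N ℤ := by
    rw [IsPrimitiveRoot.integralPowerBasis_gen]
    have h1 := Polynomial.cyclotomic_eq_minpoly hζ hN
    rw [h1]
    have h2 : ζ = ((hζ.toInteger : 𝓞 K) : K) := rfl
    conv_rhs => rw [h2]
    exact (minpoly.algebraMap_eq RingOfIntegers.coe_injective hζ.toInteger).symm
  let π : 𝓞 K →ₐ[ℤ] ZMod M := hζ.integralPowerBasis.lift t (by
    rw [hmin, Polynomial.aeval_def, Polynomial.eval₂_eq_eval_map, Polynomial.map_cyclotomic]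
    exact ht)
  have hgen : hζ.integralPowerBasis.gen = hζ.toInteger := IsPrimitiveRoot.integralPowerBasis_gen _
  have hπ : π hζ.toInteger = t := by
    rw [← hgen]
    exact hζ.integralPowerBasis.lift_gen t _
  have hπx : π x = 0 := by
    rw [← hQ, ← hπ, Polynomial.aeval_algHom_apply]
  -- the norm
  have hdvd : M ∣ (Algebra.norm ℤ x).natAbs := by
    have h1 := Ideal.absNorm_mem (Ideal.span {x})
    rw [Ideal.mem_span_singleton] at h1
    obtain ⟨y, hy⟩ := h1
    have h2 := congrArg π hy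
    rw [map_natCast, map_mul, hπx, zero_mul, ZMod.natCast_eq_zero_iff,
      Ideal.absNorm_span_singleton] at h2
    exact h2
  have hbound : (Algebra.norm ℤ x).natAbs ≤ B ^ N.totient := by
    have h1 : ((Algebra.norm ℤ x : ℤ) : ℂ) = ∏ σ : K →ₐ[ℚ] ℂ, σ (x : K) := by
      rw [← Algebra.norm_eq_prod_embeddings ℚ ℂ (x : K), ← Algebra.coe_norm_int]
      simp
    have h2 : ∀ σ : K →ₐ[ℚ] ℂ, ‖σ (x : K)‖ ≤ B := by
      intro σ
      rw [hxK]
      have h3 : σ (Polynomial.aeval ζ Q) = Polynomial.aeval (σ ζ) Q := by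
        rw [Polynomial.aeval_eq_sum_range, Polynomial.aeval_eq_sum_range, map_sum]
        apply Finset.sum_congr rfl
        intro i _
        rw [zsmul_eq_mul, zsmul_eq_mul, map_mul, map_intCast, map_pow]
      rw [h3]
      have h4 : ‖σ ζ‖ = 1 := by
        apply Complex.norm_eq_one_of_pow_eq_one (n := N) _ hN.ne'
        rw [← map_pow, hζ.pow_eq_one, map_one]
      exact hB _ h4
    have h3 : ((Algebra.norm ℤ x).natAbs : ℝ) = ‖((Algebra.norm ℤ x : ℤ) : ℂ)‖ := by
      rw [Complex.norm_intCast, Nat.cast_natAbs, Int.cast_abs]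
    have h4 : ((Algebra.norm ℤ x).natAbs : ℝ) ≤ (B : ℝ) ^ N.totient := by
      rw [h3, h1, norm_prod]
      have h5 : Fintype.card (K →ₐ[ℚ] ℂ) = N.totient := by
        rw [AlgHom.card, IsCyclotomicExtension.finrank K (Polynomial.cyclotomic.irreducible_rat hN)]
      calc ∏ σ : K →ₐ[ℚ] ℂ, ‖σ (x : K)‖ ≤ ∏ σ : K →ₐ[ℚ] ℂ, (B : ℝ) :=
            Finset.prod_le_prod (fun _ _ => norm_nonneg _) (fun σ _ => h2 σ)
        _ = (B : ℝ) ^ N.totient := by
            rw [Finset.prod_const, Finset.card_univ, h5]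
    exact_mod_cast h4
  have hnorm : (Algebra.norm ℤ x).natAbs = 0 :=
    Nat.eq_zero_of_dvd_of_lt hdvd (lt_of_le_of_lt hbound hM)
  rw [Int.natAbs_eq_zero, Algebra.norm_eq_zero_iff] at hnorm
  -- conclusion
  have h6 : Polynomial.aeval hζ.toInteger Q = 0 := hnorm
  have h7 : Polynomial.cyclotomic N ℤ ∣ Q := by
    rw [← hmin, IsPrimitiveRoot.integralPowerBasis_gen]
    exact minpoly.isIntegrallyClosed_dvd (RingOfIntegers.isIntegral _) h6
  obtain ⟨Q', rfl⟩ := h7
  rw [map_mul]
  have h8 : Polynomial.aeval z (Polynomial.cyclotomic N ℤ) = 0 := by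
    rw [Polynomial.aeval_def, Polynomial.eval₂_eq_eval_map, Polynomial.map_cyclotomic]
    exact (Polynomial.isRoot_cyclotomic_iff.2 hz)
  rw [h8, zero_mul]

theorem cyclo_small {N M : ℕ} (hN : 0 < N) (t : ZMod M)
    (ht : (Polynomial.cyclotomic N (ZMod M)).eval t = 0) (Q : Polynomial ℤ)
    (hQ : Polynomial.aeval t Q = 0) (B : ℕ) (hB : ∀ w : ℂ, ‖w‖ = 1 → ‖Polynomial.aeval w Q‖ ≤ B)
    (hM : B ^ N.totient < M) {z : ℂ} (hz : IsPrimitiveRoot z N) : Polynomial.aeval z Q = 0 := by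
  have hNe : NeZero N := ⟨hN.ne'⟩
  have := numberField_lev N
  have := isCyclotomic_lev N
  exact cyclo_small_aux hN (Lev N) t ht Q hQ B hB hM hz

end Pool.Agent.GP.NV2
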