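import Pool.Agent.GP.NV2.Index
import Pool.Agent.GP.NV2.Geom
import Pool.Agent.GP.NV2.Norm

/-!
# Uniqueness of the distinguished term
-/

open Finset

namespace Pool.Agent.GP.NV2

theorem unique_term {n q l M mT N2 : ℕ} {hM : M ∣ n} {t : (ZMod M)ˣ}
    (hI : Idx n q l M mT hM t) (hM2 : M ∣ N2) (Vp : Finset (ZMod N2)ˣ)
    (hVp : ∀ v ∈ Vp, ∃ i < mT, ZMod.unitsMap hM2 v = t ^ i) {P : ℕ} (hcard : Vp.card ≤ 2 * P)
    {L dstar B : ℕ} (hL : dstar < L) (h0 : 0 < dstar) (hB : 3 * L * P ≤ B)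
    (hBM : B ^ (l - 1) < M) {v : (ZMod N2)ˣ} (hv : v ∈ Vp) {d : ℕ} (hd : d < L)
    {J : Finset (ZMod N2)ˣ} (hJ : J ⊆ Vp) (hvJ : v ∉ J)
    (h : (d : ZMod N2) * (v : ZMod N2) + L * ∑ v' ∈ J, (v' : ZMod N2) = dstar) :
    J = ∅ ∧ d = dstar := by
  classical
  choose! ι hι using hVp
  have hmT := hI.pos
  -- reduction modulo `M`
  have hred : ∀ w ∈ Vp, ZMod.castHom hM2 (ZMod M) (w : ZMod N2) = (t : ZMod M) ^ ι w := by
    intro w hw
    have h1 := congrArg Units.val (hι w hw).2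
    rw [ZMod.unitsMap_val, Units.val_pow_eq_pow_val] at h1
    rw [ZMod.castHom_apply]
    exact h1
  let Q : Polynomial ℤ := Polynomial.C (d : ℤ) * Polynomial.X ^ ι v +
    Polynomial.C (L : ℤ) * ∑ v' ∈ J, Polynomial.X ^ ι v' - Polynomial.C (dstar : ℤ)
  have hQt : Polynomial.aeval (t : ZMod M) Q = 0 := by
    have h1 := congrArg (ZMod.castHom hM2 (ZMod M)) h
    rw [map_add, map_mul, map_mul, map_natCast, map_natCast, map_natCast, map_sum, hred v hv] at h1
    have h2 : ∑ v' ∈ J, ZMod.castHom hM2 (ZMod M) (v' : ZMod N2) =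
        ∑ v' ∈ J, (t : ZMod M) ^ ι v' :=
      Finset.sum_congr rfl (fun w hw => hred w (hJ hw))
    rw [h2] at h1
    simp only [Q, map_sub, map_add, map_mul, map_sum, map_pow, Polynomial.aeval_X,
      Polynomial.aeval_C]
    simp only [algebraMap_int_eq, eq_intCast, Int.cast_natCast]
    rw [h1, sub_self]
  have hQw : ∀ w : ℂ, Polynomial.aeval w Q = (d : ℂ) * w ^ ι v + L * ∑ v' ∈ J, w ^ ι v' - dstar := by
    intro w
    simp only [Q, map_sub, map_add, map_mul, map_sum, map_pow, Polynomial.aeval_X,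
      Polynomial.aeval_C]
    simp only [algebraMap_int_eq, eq_intCast, Int.cast_natCast]
  have hJcard : J.card + 1 ≤ 2 * P := by
    have h1 : (insert v J).card ≤ Vp.card := by
      apply Finset.card_le_card
      intro w hw
      rcases Finset.mem_insert.1 hw with rfl | hw
      · exact hv
      · exact hJ hw
    rw [Finset.card_insert_of_notMem hvJ] at h1
    omega
  have hBw : ∀ w : ℂ, ‖w‖ = 1 → ‖Polynomial.aeval w Q‖ ≤ B := by
    intro w hw
    rw [hQw]
    have hn : ∀ m : ℕ, ‖w ^ m‖ = 1 := fun m => by rw [norm_pow, hw, one_pow]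
    have e1 : ‖(d : ℂ) * w ^ ι v‖ ≤ (L : ℝ) := by
      rw [norm_mul, hn, mul_one, Complex.norm_natCast]
      exact_mod_cast hd.le
    have e2 : ‖(L : ℂ) * ∑ v' ∈ J, w ^ ι v'‖ ≤ (L : ℝ) * J.card := by
      rw [norm_mul, Complex.norm_natCast]
      apply mul_le_mul_of_nonneg_left _ (Nat.cast_nonneg _)
      calc ‖∑ v' ∈ J, w ^ ι v'‖ ≤ ∑ v' ∈ J, ‖w ^ ι v'‖ := norm_sum_le _ _
        _ = J.card := by simp [hn]
    have e3 : ‖(dstar : ℂ)‖ ≤ (L : ℝ) := by
      rw [Complex.norm_natCast]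
      exact_mod_cast hL.le
    have e4 : (L : ℝ) + L * J.card + L ≤ B := by
      have h1 : L + L * J.card + L ≤ B := by
        have h2 : L * (J.card + 2) ≤ L * (3 * P) := by
          apply Nat.mul_le_mul_left
          omega
        calc L + L * J.card + L = L * (J.card + 2) := by ring
          _ ≤ L * (3 * P) := h2
          _ = 3 * L * P := by ring
          _ ≤ B := hB
      exact_mod_cast h1
    calc ‖(d : ℂ) * w ^ ι v + L * ∑ v' ∈ J, w ^ ι v' - dstar‖
        ≤ ‖(d : ℂ) * w ^ ι v + L * ∑ v' ∈ J, w ^ ι v'‖ + ‖(dstar : ℂ)‖ := norm_sub_le _ _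
      _ ≤ ‖(d : ℂ) * w ^ ι v‖ + ‖L * ∑ v' ∈ J, w ^ ι v'‖ + ‖(dstar : ℂ)‖ := by
          gcongr
          exact norm_add_le _ _
      _ ≤ (L : ℝ) + L * J.card + L := by linarith
      _ ≤ B := e4
  have hBpos : 1 ≤ B := by
    have : 1 ≤ 3 * L * P := by
      have h1 : 0 < L := by omega
      have h2 : 0 < P := by omega
      have := Nat.mul_pos (Nat.mul_pos (by norm_num : 0 < 3) h1) h2
      omega
    omega
  have hBM' : B ^ (2 * mT).totient < M :=
    lt_of_le_of_lt (Nat.pow_le_pow_right hBpos hI.tot) hBM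
  have hz := Complex.isPrimitiveRoot_exp (2 * mT) (by omega)
  have hfin := cyclo_small (by omega) (t : ZMod M) hI.cyc Q hQt B hBw hBM' hz
  rw [hQw] at hfin
  refine geom_unique hmT hL h0 J ι (fun w hw => (hι w (hJ hw)).1) (i0 := ι v) (hι v hv).1 ?_
  have := sub_eq_zero.1 hfin
  rw [← this]

end Pool.Agent.GP.NV2
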