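import Pool.Agent.GP.NV2.Trace

/-!
# Averaging over Frobenius conjugates, composite conductor
-/

open Finset

namespace Pool.Agent.GP.NV2

theorem dvd_geom_prime {l : ℕ} {X : ℤ} (h : (l : ℤ) ∣ X - 1) : (l : ℤ) ∣ ∑ i ∈ range l, X ^ i := by
  have h1 : ∑ i ∈ range l, X ^ i = ∑ i ∈ range l, (X ^ i - 1) + l := by
    rw [Finset.sum_sub_distrib]
    simp
  rw [h1]
  apply dvd_add _ dvd_rfl
  apply Finset.dvd_sum
  intro i _
  refine h.trans ?_
  simpa using sub_dvd_pow_sub_pow X 1 i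

theorem mul_dvd_pow_sub_int (m : ℕ) : ∀ X : ℤ, 0 < m → (∀ l : ℕ, l.Prime → l ∣ m → (l : ℤ) ∣ X - 1) →
    (X - 1) * m ∣ X ^ m - 1 := by
  induction m using Nat.strong_induction_on with
  | _ m ih =>
    intro X hm h
    by_cases h1 : m = 1
    · subst h1; simp
    · set l := m.minFac with hl
      have hlp : l.Prime := Nat.minFac_prime h1
      obtain ⟨m', hm'⟩ : l ∣ m := Nat.minFac_dvd m
      have hm'0 : 0 < m' := by
        rcases Nat.eq_zero_or_pos m' with h0 | h0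
        · rw [h0] at hm'; omega
        · exact h0
      have hlt : m' < m := by
        rw [hm']
        have := hlp.two_le
        nlinarith
      have h2 := ih m' hlt X hm'0 (fun l' hl' hd => h l' hl' (hd.trans ⟨l, by rw [hm']; ring⟩))
      have h3 : (l : ℤ) ∣ X ^ m' - 1 := by
        refine (h l hlp ⟨m', hm'⟩).trans ?_
        simpa using sub_dvd_pow_sub_pow X 1 m'
      have h4 := dvd_geom_prime h3
      have h5 : X ^ m - 1 = (X ^ m' - 1) * ∑ i ∈ range l, (X ^ m') ^ i := by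
        rw [mul_comm, geom_sum_mul, ← pow_mul, mul_comm m' l, ← hm']
      have h6 : (X - 1) * (m : ℤ) = ((X - 1) * m') * l := by
        rw [hm']; push_cast; ring
      rw [h5, h6]
      exact mul_dvd_mul h2 h4

theorem mul_dvd_pow_sub {q m : ℕ} (hq : 1 ≤ q) (hm : 0 < m)
    (h : ∀ l : ℕ, l.Prime → l ∣ m → l ∣ q - 1) : (q - 1) * m ∣ q ^ m - 1 := by
  have h1 := mul_dvd_pow_sub_int m (q : ℤ) hm (by
    intro l hl hd
    have := h l hl hd
    have h2 : ((q : ℤ) - 1) = ((q - 1 : ℕ) : ℤ) := by push_cast [hq]; ring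
    rw [h2]
    exact_mod_cast this)
  have h2 : ((q : ℤ) - 1) = ((q - 1 : ℕ) : ℤ) := by push_cast [hq]; ring
  have h3 : ((q : ℤ) ^ m - 1) = ((q ^ m - 1 : ℕ) : ℤ) := by
    have : 1 ≤ q ^ m := Nat.one_le_pow _ _ hq
    push_cast [this]; ring
  rw [h2, h3] at h1
  exact_mod_cast h1

theorem trace_zero' {k : Type*} [Field k] {n q : ℕ} (hn : 0 < n) (hq : 1 < q)
    (h4 : 2 ∣ n → 4 ∣ q - 1) (hl : ∀ l : ℕ, l.Prime → l ∣ n → l ∣ q - 1) (z : k)
    (hz : z ^ ((q - 1) * n) = 1) (hz' : z ^ (q - 1) ≠ 1) :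
    ∑ s ∈ range n, z ^ (q ^ s) = 0 := by
  classical
  set o := orderOf z with ho
  have ho1 : o ∣ (q - 1) * n := orderOf_dvd_of_pow_eq_one hz
  have ho0 : o ≠ 0 := by
    intro h
    rw [h, zero_dvd_iff] at ho1
    have : 0 < (q - 1) * n := Nat.mul_pos (by omega) hn
    omega
  have ho2 : ¬ o ∣ q - 1 := fun h => hz' (orderOf_dvd_iff_pow_eq_one.1 h)
  rw [Nat.dvd_iff_prime_pow_dvd_dvd] at ho2
  push Not at ho2
  obtain ⟨l, k', hlp, hk1, hk2⟩ := ho2
  obtain ⟨u, o', hlo', hou⟩ := Nat.exists_eq_pow_mul_and_not_dvd ho0 l hlp.ne_one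
  obtain ⟨e, q', hlq', hqe⟩ := Nat.exists_eq_pow_mul_and_not_dvd
    (show q - 1 ≠ 0 by omega) l hlp.ne_one
  have hk'u : k' ≤ u := by
    by_contra hcon
    push Not at hcon
    have h1 : l ^ (u + 1) ∣ l ^ u * o' := by
      rw [← hou]; exact (pow_dvd_pow l hcon).trans hk1
    rw [pow_succ, Nat.mul_dvd_mul_iff_left (pow_pos hlp.pos _)] at h1
    exact hlo' h1
  have hek' : e < k' := by
    by_contra hcon
    push Not at hcon
    apply hk2
    rw [hqe]
    exact (pow_dvd_pow l hcon).trans (Dvd.intro _ rfl)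
  have hue : e < u := by omega
  have hq1 : 1 ≤ q := hq.le
  have hnote : ¬ l ^ (e + 1) ∣ q - 1 := by
    intro h
    rw [hqe, pow_succ, Nat.mul_dvd_mul_iff_left (pow_pos hlp.pos _)] at h
    exact hlq' h
  have hln : l ∣ n := by
    by_contra hcon
    apply hnote
    have h1 : l ^ (e + 1) ∣ (q - 1) * n := (pow_dvd_pow l hue).trans
      ((Dvd.intro o' hou.symm).trans ho1)
    have hc : Nat.Coprime (l ^ (e + 1)) n :=
      Nat.Coprime.pow_left _ ((Nat.Prime.coprime_iff_not_dvd hlp).2 hcon)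
    exact hc.dvd_of_dvd_mul_right h1
  have hlq : l ∣ q - 1 := hl l hlp hln
  have he1 : 1 ≤ e := by
    by_contra hcon
    have : e = 0 := by omega
    subst this
    simp only [pow_zero, one_mul] at hqe
    rw [hqe] at hlq
    exact hlq' hlq
  have he2 : l = 2 → 2 ≤ e := by
    rintro rfl
    by_contra hcon
    have : e = 1 := by omega
    subst this
    have := h4 hln
    apply hnote
    norm_num
    exact this
  have ho'pos : 0 < o' := Nat.pos_of_ne_zero (fun h => hlo' (h ▸ dvd_zero l))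
  have ho'q : ∀ l' : ℕ, l'.Prime → l' ∣ o' → l' ∣ q - 1 := by
    intro l' hl' hd
    have h1 : l' ∣ (q - 1) * n := (hd.trans (Dvd.intro_left _ hou.symm)).trans ho1
    rcases (Nat.Prime.dvd_mul hl').1 h1 with h2 | h2
    · exact h2
    · exact hl l' hl' h2
  have hqt : ∀ t, q - 1 ∣ q ^ t - 1 := fun t => by
    simpa using Nat.sub_dvd_pow_sub_pow q 1 t
  have hqt1 : ∀ t, 1 ≤ q ^ t := fun t => Nat.one_le_pow _ _ (by omega)
  set t := l ^ (u - 1 - e) * o' with ht
  have F0 : o' ∣ q ^ t - 1 := by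
    have h1 : o' ∣ q ^ o' - 1 := (Dvd.intro_left _ rfl).trans (mul_dvd_pow_sub hq1 ho'pos ho'q)
    refine h1.trans ?_
    have h2 := Nat.sub_dvd_pow_sub_pow (q ^ o') 1 (l ^ (u - 1 - e))
    rw [one_pow, ← pow_mul, mul_comm o', ← ht] at h2
    exact h2
  have F1 : l ^ (u - 1) ∣ q ^ t - 1 := by
    have := (pow_sub_one_dvd hlp he1 he2 hq1 (Dvd.intro _ hqe.symm) hnote (u - 1 - e) t).2
      (Dvd.intro _ rfl)
    rwa [show u - 1 - e + e = u - 1 by omega] at this
  have F2 : ¬ l ^ u ∣ q ^ t - 1 := by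
    intro h
    have := (pow_sub_one_dvd hlp he1 he2 hq1 (Dvd.intro _ hqe.symm) hnote (u - e) t).1
      (by rwa [show u - e + e = u by omega])
    have h3 : l ^ (u - e) = l ^ (u - 1 - e) * l := by rw [← pow_succ]; congr 1; omega
    rw [ht, h3, Nat.mul_dvd_mul_iff_left (pow_pos hlp.pos _)] at this
    exact hlo' this
  set ω := z ^ (q ^ t - 1) with hω
  have hω1 : ω ≠ 1 := by
    intro h
    apply F2
    have h1 := orderOf_dvd_of_pow_eq_one h
    rw [← ho, hou] at h1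
    exact (Dvd.intro _ rfl).trans h1
  have hωl : ω ^ l = 1 := by
    rw [hω, ← pow_mul, ← orderOf_dvd_iff_pow_eq_one, ← ho, hou]
    have hc : Nat.Coprime (l ^ u) o' :=
      Nat.Coprime.pow_left _ ((Nat.Prime.coprime_iff_not_dvd hlp).2 hlo')
    apply hc.mul_dvd_of_dvd_of_dvd
    · have h3 : l ^ u = l ^ (u - 1) * l := by rw [← pow_succ]; congr 1; omega
      rw [h3]
      exact Nat.mul_dvd_mul_right F1 _
    · exact F0.trans (Dvd.intro _ rfl)
  have hωq : ∀ s, ω ^ (q ^ s) = ω := by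
    intro s
    obtain ⟨b, hb⟩ := hlq.trans (hqt s)
    have : q ^ s = 1 + l * b := by have := hqt1 s; omega
    rw [this, pow_add, pow_mul, hωl, one_pow, pow_one, mul_one]
  have hz0 : z ^ (q ^ n) = z := by
    obtain ⟨b, hb⟩ := mul_dvd_pow_sub hq1 hn hl
    have : q ^ n = 1 + (q - 1) * n * b := by
      have := hqt1 n; omega
    rw [this, pow_add, pow_mul, hz, one_pow, pow_one, mul_one]
  have hshift := sum_shift (fun s => z ^ (q ^ s)) n (by
    intro s
    rw [pow_add, mul_comm, pow_mul, hz0]) t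
  have h3 : ∀ s, z ^ (q ^ (s + t)) = z ^ (q ^ s) * ω := by
    intro s
    have e1 : z ^ (q ^ t) = z * ω := by
      rw [hω, ← pow_succ']
      congr 1
      have := hqt1 t; omega
    rw [pow_add, mul_comm, pow_mul, e1, mul_pow, hωq]
  simp only [h3] at hshift
  rw [← Finset.sum_mul] at hshift
  have h5 : (∑ s ∈ range n, z ^ (q ^ s)) * (ω - 1) = 0 := by
    rw [mul_sub, hshift]; ring
  exact (mul_eq_zero.1 h5).resolve_right (sub_ne_zero.2 hω1)

theorem units_pow_exp {n q : ℕ} (hn : 0 < n)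
    (hl : ∀ l : ℕ, l.Prime → l ∣ n → l * (l - 1) ∣ q - 1) (x : (ZMod n)ˣ) :
    x ^ ((q - 1) * n) = 1 := by
  have hne : NeZero n := ⟨hn.ne'⟩
  have hcop := ZMod.val_coe_unit_coprime x
  have key : ((n : ℕ) : ℤ) ∣ ((x : ZMod n).val : ℤ) ^ ((q - 1) * n) - 1 := by
    rw [Int.natCast_dvd, Nat.dvd_iff_prime_pow_dvd_dvd]
    intro l k' hlp hd
    rcases Nat.eq_zero_or_pos k' with h0 | h0
    · rw [h0, pow_zero]; exact one_dvd _
    rw [← Int.natCast_dvd]
    have hln : l ∣ n := (dvd_pow_self l h0.ne').trans hd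
    have h1 : Nat.Coprime (x : ZMod n).val (l ^ k') := Nat.Coprime.of_dvd_right hd hcop
    have h2 := Nat.ModEq.pow_totient h1
    have h3 : Nat.totient (l ^ k') ∣ (q - 1) * n := by
      rw [Nat.totient_prime_pow hlp h0, mul_comm]
      apply mul_dvd_mul
      · exact (Dvd.intro_left _ rfl).trans (hl l hlp hln)
      · exact (pow_dvd_pow l (Nat.sub_le _ _)).trans hd
    obtain ⟨b, hb⟩ := h3
    have h4 : (x : ZMod n).val ^ ((q - 1) * n) ≡ 1 [MOD l ^ k'] := by
      rw [hb, pow_mul]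
      simpa using h2.pow b
    have h5 := (Nat.modEq_iff_dvd.1 h4.symm)
    push_cast at h5 ⊢
    exact h5
  apply Units.ext
  rw [Units.val_pow_eq_pow_val, Units.val_one]
  have h1 := (ZMod.intCast_zmod_eq_zero_iff_dvd _ n).2 key
  push_cast at h1
  rw [ZMod.natCast_zmod_val] at h1
  exact sub_eq_zero.1 h1

section avg

variable {k : Type*} [Field k] {p : ℕ} [Fact p.Prime] [CharP k p] {G : Type*} [CommGroup G]
  [Fintype G] {r : ℕ} (χ : G →* k) (f : G → k) (σ : G)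

open Classical in
theorem avg' {n : ℕ} (hn : 0 < n) (hq : 1 < p ^ r) (h4 : 2 ∣ n → 4 ∣ p ^ r - 1)
    (hl : ∀ l : ℕ, l.Prime → l ∣ n → l ∣ p ^ r - 1) (hnk : (n : k) ≠ 0)
    (hχ : ∀ a, χ a ^ ((p ^ r - 1) * n) = 1)
    (hf : ∀ a, f a ^ (p ^ r) = f (σ * a)) (h0 : ∑ a, χ a * f a = 0) (b : G) :
    (∑ a ∈ univ.filter (fun a : G => χ a ^ (p ^ r - 1) = 1), χ a * f (a * b)) = 0 := by
  have h3 : ∑ s ∈ range n, χ b⁻¹ ^ ((p ^ r) ^ s) *
      ∑ a, χ a ^ ((p ^ r) ^ s) * f a = 0 := by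
    apply Finset.sum_eq_zero
    intro s _
    rw [conj_sum χ f σ hf h0 s, mul_zero]
  have h5 : ∑ s ∈ range n, χ b⁻¹ ^ ((p ^ r) ^ s) *
      ∑ a, χ a ^ ((p ^ r) ^ s) * f a =
      ∑ a : G, f (a * b) * ∑ s ∈ range n, χ a ^ ((p ^ r) ^ s) := by
    simp only [Finset.mul_sum]
    rw [Finset.sum_comm, ← Equiv.sum_comp (Equiv.mulRight b)]
    apply Finset.sum_congr rfl
    intro a _
    apply Finset.sum_congr rfl
    intro s _
    simp only [Equiv.coe_mulRight]
    have : χ a ^ ((p ^ r) ^ s) = χ b⁻¹ ^ ((p ^ r) ^ s) * χ (a * b) ^ ((p ^ r) ^ s) := by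
      rw [← mul_pow, ← map_mul]
      congr 2
      rw [mul_comm a b, inv_mul_cancel_left]
    rw [this]; ring
  rw [h5] at h3
  have h6 : ∀ a : G, f (a * b) * ∑ s ∈ range n, χ a ^ ((p ^ r) ^ s) =
      (n : k) * (if χ a ^ (p ^ r - 1) = 1 then χ a * f (a * b) else 0) := by
    intro a
    split_ifs with h
    · have h7 : ∀ s, χ a ^ ((p ^ r) ^ s) = χ a := by
        intro s
        obtain ⟨c, hc⟩ : p ^ r - 1 ∣ (p ^ r) ^ s - 1 := by
          simpa using Nat.sub_dvd_pow_sub_pow (p ^ r) 1 s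
        have h8 : 1 ≤ (p ^ r) ^ s := Nat.one_le_pow _ _ (by omega)
        have : (p ^ r) ^ s = 1 + (p ^ r - 1) * c := by omega
        rw [this, pow_add, pow_mul, h, one_pow, pow_one, mul_one]
      simp only [h7]
      rw [Finset.sum_const, Finset.card_range, nsmul_eq_mul]
      ring
    · rw [trace_zero' hn hq h4 hl (χ a) (hχ a) h]
      ring
  simp only [h6] at h3
  rw [← Finset.mul_sum, ← Finset.sum_filter] at h3
  exact (mul_eq_zero.1 h3).resolve_left hnk

end avg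

end Pool.Agent.GP.NV2
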