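import Pool.Agent.GP.NV2.Units
import Pool.Agent.GP.NV2.Trace2

/-!
# Units modulo a composite number
-/

open Finset

namespace Pool.Agent.GP.NV2

section cong

variable {n : ℕ} [NeZero n]

theorem unitsMap_eq_one_iff {m : ℕ} (hd : m ∣ n) (a : (ZMod n)ˣ) :
    ZMod.unitsMap hd a = 1 ↔ (m : ℤ) ∣ ((a : ZMod n).val : ℤ) - 1 := by
  have h1 : ZMod.unitsMap hd a = 1 ↔ (ZMod.castHom hd (ZMod m)) (a : ZMod n) = 1 := by
    rw [← Units.val_inj, ZMod.unitsMap_val, Units.val_one, ZMod.castHom_apply]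
  have h2 : (ZMod.castHom hd (ZMod m)) (a : ZMod n) = (((a : ZMod n).val : ℤ) : ZMod m) := by
    conv_lhs => rw [← ZMod.natCast_zmod_val (a : ZMod n)]
    rw [map_natCast]
    push_cast
    rfl
  rw [h1, h2, ← sub_eq_zero, ← Int.cast_one, ← Int.cast_sub, ZMod.intCast_zmod_eq_zero_iff_dvd]

theorem gather {m : ℕ} (hd : m ∣ n) (a : (ZMod n)ˣ)
    (h : ∀ (l k' : ℕ) (hlk : l ^ k' ∣ m), l.Prime → 1 ≤ k' → ZMod.unitsMap (hlk.trans hd) a = 1) :
    ZMod.unitsMap hd a = 1 := by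
  rw [unitsMap_eq_one_iff, Int.natCast_dvd, Nat.dvd_iff_prime_pow_dvd_dvd]
  intro l k' hl hk
  rcases Nat.eq_zero_or_pos k' with h0 | h0
  · rw [h0, pow_zero]; exact one_dvd _
  have := h l k' hk hl h0
  rwa [unitsMap_eq_one_iff, Int.natCast_dvd] at this

theorem unitsMap_comp' {m m' : ℕ} (hd : m ∣ n) (hd' : m' ∣ m) (a : (ZMod n)ˣ) :
    ZMod.unitsMap hd' (ZMod.unitsMap hd a) = ZMod.unitsMap (hd'.trans hd) a := by
  rw [← MonoidHom.comp_apply, ZMod.unitsMap_comp]

theorem mono {m m' : ℕ} (hd : m ∣ n) (hd' : m' ∣ m) {a : (ZMod n)ˣ}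
    (h : ZMod.unitsMap hd a = 1) : ZMod.unitsMap (hd'.trans hd) a = 1 := by
  rw [← unitsMap_comp' hd hd', h, map_one]

theorem congr_mod {m m' : ℕ} (e : m = m') (h : m ∣ n) (h' : m' ∣ n) {x : (ZMod n)ˣ}
    (hx : ZMod.unitsMap h x = 1) : ZMod.unitsMap h' x = 1 := by
  subst e; exact hx

theorem exists_of_unitsMap {m : ℕ} (hd : m ∣ n) (a : (ZMod n)ˣ) (h : ZMod.unitsMap hd a = 1) :
    ∃ z : ZMod n, (a : ZMod n) = 1 + (m : ZMod n) * z := by
  rw [unitsMap_eq_one_iff] at h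
  obtain ⟨z, hz⟩ := h
  refine ⟨(z : ZMod n), ?_⟩
  have h1 := congrArg (Int.cast : ℤ → ZMod n) hz
  push_cast at h1
  rw [ZMod.natCast_zmod_val] at h1
  linear_combination h1

theorem unitsMap_of_exists {m : ℕ} (hd : m ∣ n) (a : (ZMod n)ˣ) (z : ZMod n)
    (h : (a : ZMod n) = 1 + (m : ZMod n) * z) : ZMod.unitsMap hd a = 1 := by
  apply Units.ext
  rw [ZMod.unitsMap_val, Units.val_one]
  have : ((a : ZMod n).cast : ZMod m) = ZMod.castHom hd (ZMod m) (a : ZMod n) := rfl
  rw [this, h, map_add, map_one, map_mul, map_natCast, ZMod.natCast_self, zero_mul, add_zero]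

end cong

section G1

variable {n q : ℕ} [NeZero n]

/-- `1`-units at `l`, of order prime to `l` are trivial at `l` -/
theorem local_trivial {l j : ℕ} (hl : l.Prime) (hj : 1 ≤ j) (hd : l ^ j ∣ n) {a : (ZMod n)ˣ}
    (h1 : ZMod.unitsMap ((pow_dvd_pow l hj).trans hd) a = 1)
    (h2 : l = 2 → ∀ h4 : 2 ^ 2 ∣ n, ZMod.unitsMap h4 a = 1) {s : ℕ} (hs : ¬ l ∣ s)
    (has : a ^ s = 1) : ZMod.unitsMap hd a = 1 := by
  have hne : NeZero (l ^ j) := ⟨pow_ne_zero _ hl.ne_zero⟩
  set x := ZMod.unitsMap hd a with hx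
  have hxs : x ^ s = 1 := by rw [hx, ← map_pow, has, map_one]
  have key : ∃ N, x ^ (l ^ N) = 1 := by
    by_cases hl2 : l = 2
    · by_cases hj2 : 2 ≤ j
      · refine ⟨j - 2, pow_eq_one_of_mem (m := 2) hl (by norm_num) (fun _ => le_rfl) hj2 ?_⟩
        unfold H
        rw [MonoidHom.mem_ker, hx, unitsMap_comp']
        subst hl2
        exact h2 rfl _
      · have : j = 1 := by omega
        subst this
        refine ⟨0, ?_⟩
        rw [pow_zero l, pow_one x]
        exact h1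
    · refine ⟨j - 1, pow_eq_one_of_mem (m := 1) hl (by norm_num) (fun h => absurd h hl2) hj ?_⟩
      unfold H
      rw [MonoidHom.mem_ker, hx, unitsMap_comp']
      exact h1
  obtain ⟨N, hN⟩ := key
  have hc : Nat.Coprime (l ^ N) s :=
    Nat.Coprime.pow_left _ ((Nat.Prime.coprime_iff_not_dvd hl).2 hs)
  have d1 := Nat.dvd_gcd (orderOf_dvd_of_pow_eq_one hN) (orderOf_dvd_of_pow_eq_one hxs)
  rw [hc] at d1
  exact orderOf_eq_one_iff.1 (Nat.dvd_one.1 d1)

variable (hl1 : ∀ l : ℕ, l.Prime → l ∣ n → l * (l - 1) ∣ q - 1) (h4 : 4 ∣ q - 1)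

include hl1 in
theorem pow_q_one {l : ℕ} (hl : l.Prime) (hd : l ∣ n) (a : (ZMod n)ˣ) :
    ZMod.unitsMap hd (a ^ (q - 1)) = 1 := by
  rw [map_pow]
  have h1 := ZMod.pow_totient (ZMod.unitsMap hd a)
  rw [Nat.totient_prime hl] at h1
  obtain ⟨b, hb⟩ : l - 1 ∣ q - 1 := (Dvd.intro_left _ rfl).trans (hl1 l hl hd)
  rw [hb, pow_mul, h1, one_pow]

include h4 in
theorem pow_q_four (hd : 2 ^ 2 ∣ n) (a : (ZMod n)ˣ) :
    ZMod.unitsMap hd (a ^ (q - 1)) = 1 := by
  rw [map_pow]
  obtain ⟨b, hb⟩ := h4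
  have h1 : ∀ x : (ZMod (2 ^ 2))ˣ, x ^ 4 = 1 := by decide
  rw [hb, pow_mul, h1, one_pow]

include hl1 h4 in
/-- if a character nontrivial on each `1 + (n / l)` kills `a ^ (q - 1)` then `a ^ (q - 1) = 1` -/
theorem pow_eq_one_of_char (hq : 1 < q) {K : Type*} [CommMonoid K] (χ : (ZMod n)ˣ →* K)
    (hprim : ∀ l : ℕ, l.Prime → ∀ hd : n / l ∣ n, l ∣ n →
      ∃ u : (ZMod n)ˣ, ZMod.unitsMap hd u = 1 ∧ χ u ≠ 1)
    (a : (ZMod n)ˣ) (ha : χ a ^ (q - 1) = 1) : a ^ (q - 1) = 1 := by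
  have hn : 0 < n := Nat.pos_of_ne_zero (NeZero.ne n)
  by_contra hX
  set X := a ^ (q - 1) with hXdef
  have hχX : χ X = 1 := by rw [hXdef, map_pow, ha]
  have hXn : X ^ n = 1 := by
    rw [hXdef, ← pow_mul]
    exact units_pow_exp hn hl1 a
  have hoX1 : orderOf X ≠ 1 := fun h => hX (orderOf_eq_one_iff.1 h)
  set l := (orderOf X).minFac with hldef
  have hl : l.Prime := Nat.minFac_prime hoX1
  have hloX : l ∣ orderOf X := Nat.minFac_dvd _
  have hln : l ∣ n := hloX.trans (orderOf_dvd_of_pow_eq_one hXn)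
  obtain ⟨s, hs⟩ := hloX
  have hoX0 : 0 < orderOf X := orderOf_pos X
  have hs0 : 0 < s := by
    rcases Nat.eq_zero_or_pos s with h0 | h0
    · rw [h0] at hs; omega
    · exact h0
  set Y := X ^ s with hY
  have hYl : Y ^ l = 1 := by rw [hY, ← pow_mul, mul_comm, ← hs, pow_orderOf_eq_one]
  have hY1 : Y ≠ 1 := by
    intro h
    have h1 := orderOf_dvd_of_pow_eq_one h
    rw [hs] at h1
    have h2 := Nat.le_of_dvd hs0 h1
    have := hl.two_le
    nlinarith
  have hχY : χ Y = 1 := by rw [hY, map_pow, hχX, one_pow]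
  have hYW : Y = (a ^ s) ^ (q - 1) := by
    rw [hY, hXdef, ← pow_mul, ← pow_mul, mul_comm]
  -- `Y ≡ 1 (mod n / l)`
  obtain ⟨j, n1, hln1, hnj⟩ := Nat.exists_eq_pow_mul_and_not_dvd hn.ne' l hl.ne_one
  have hj1 : 1 ≤ j := by
    by_contra hcon
    have : j = 0 := by omega
    rw [this, pow_zero, one_mul] at hnj
    rw [hnj] at hln
    exact hln1 hln
  have hndl : n / l = l ^ (j - 1) * n1 := by
    rw [hnj]
    have : l ^ j = l * l ^ (j - 1) := by rw [← pow_succ']; congr 1; omega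
    rw [this, mul_assoc, Nat.mul_div_cancel_left _ hl.pos]
  have hdl : n / l ∣ n := Nat.div_dvd_of_dvd hln
  have hYn1 : ZMod.unitsMap (show n1 ∣ n from Dvd.intro_left _ hnj.symm) Y = 1 := by
    apply gather
    intro l' k' hlk hl' hk'
    have hll' : l' ≠ l := by
      rintro rfl
      exact hln1 ((dvd_pow_self _ (by omega)).trans hlk)
    apply local_trivial hl' hk' (s := l)
    · rw [hYW]
      exact congr_mod (pow_one l').symm _ _ (pow_q_one hl1 hl' (((dvd_pow_self l'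
        (by omega)).trans hlk).trans (Dvd.intro_left _ hnj.symm)) (a ^ s))
    · rintro rfl h22
      rw [hYW]
      exact pow_q_four h4 h22 _
    · intro h
      exact hll' ((Nat.prime_dvd_prime_iff_eq hl' hl).1 h)
    · exact hYl
  have hYj : ZMod.unitsMap (show l ^ (j - 1) ∣ n from
      (pow_dvd_pow l (Nat.sub_le _ _)).trans (Dvd.intro _ hnj.symm)) Y = 1 := by
    have hne : NeZero (l ^ j) := ⟨pow_ne_zero _ hl.ne_zero⟩
    have hdj : l ^ j ∣ n := Dvd.intro _ hnj.symm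
    have hYl' : (ZMod.unitsMap hdj Y) ^ (l ^ 1) = 1 := by
      rw [pow_one, ← map_pow, hYl, map_one]
    have hmem : ZMod.unitsMap hdj Y ∈ H l j (j - 1) (Nat.sub_le _ _) := by
      by_cases hl2 : l = 2
      · by_cases hj2 : 2 ≤ j
        · refine mem_of_pow_eq_one (m := 2) hl (by norm_num) (fun _ => le_rfl) hj2 ?_ hYl'
          unfold H
          rw [MonoidHom.mem_ker, unitsMap_comp', hYW]
          have h22 : l ^ 2 ∣ n := (pow_dvd_pow l hj2).trans hdj
          have h23 : 2 ^ 2 ∣ n := by rwa [hl2] at h22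
          exact congr_mod (by rw [hl2]) _ _ (pow_q_four h4 h23 (a ^ s))
        · have : j - 1 = 0 := by omega
          unfold H
          rw [MonoidHom.mem_ker, unitsMap_comp', unitsMap_eq_one_iff, this]
          simp
      · refine mem_of_pow_eq_one (m := 1) hl (by norm_num) (fun h => absurd h hl2) hj1 ?_ hYl'
        unfold H
        rw [MonoidHom.mem_ker, unitsMap_comp', hYW]
        exact congr_mod (pow_one l).symm _ _ (pow_q_one hl1 hl hln (a ^ s))
    unfold H at hmem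
    rw [MonoidHom.mem_ker, unitsMap_comp'] at hmem
    exact hmem
  have hYnl : ZMod.unitsMap hdl Y = 1 := by
    rw [unitsMap_eq_one_iff] at hYn1 hYj ⊢
    rw [hndl]
    push_cast at hYj ⊢
    apply IsCoprime.mul_dvd _ hYj hYn1
    have : Nat.Coprime (l ^ (j - 1)) n1 :=
      Nat.Coprime.pow_left _ ((Nat.Prime.coprime_iff_not_dvd hl).2 hln1)
    have h1 := Nat.isCoprime_iff_coprime.2 this
    push_cast at h1
    exact h1
  -- `Y` generates `1 + (n / l)`
  obtain ⟨u, hu, hχu⟩ := hprim l hl hdl hln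
  apply hχu
  by_cases hj2 : 2 ≤ j
  · obtain ⟨z, hz⟩ := exists_of_unitsMap hdl u hu
    obtain ⟨y, hy⟩ := exists_of_unitsMap hdl Y hYnl
    have hnl : n / l * l = n := Nat.div_mul_cancel hln
    have hsq : ((n / l : ℕ) : ZMod n) * ((n / l : ℕ) : ZMod n) = 0 := by
      rw [← Nat.cast_mul, ZMod.natCast_eq_zero_iff]
      have h1 : l ∣ n / l := by
        rw [hndl]
        exact (dvd_pow_self l (by omega)).trans (Dvd.intro _ rfl)
      obtain ⟨b, hb⟩ := h1
      refine ⟨b, ?_⟩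
      calc n / l * (n / l) = n / l * (l * b) := by rw [← hb]
        _ = (n / l * l) * b := by ring
        _ = n * b := by rw [hnl]
    have hly : ¬ l ∣ y.val := by
      rintro ⟨b, hb⟩
      apply hY1
      apply Units.ext
      have h0 : ((n / l : ℕ) : ZMod n) * (l : ZMod n) = 0 := by
        rw [← Nat.cast_mul, hnl, ZMod.natCast_self]
      rw [hy, Units.val_one, ← ZMod.natCast_zmod_val y, hb]
      push_cast
      rw [← mul_assoc, h0, zero_mul, add_zero]
    have hpow : ∀ N : ℕ, ((Y ^ N : (ZMod n)ˣ) : ZMod n) =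
        1 + ((n / l : ℕ) : ZMod n) * (N * y) := by
      intro N
      induction N with
      | zero => simp
      | succ N ih =>
        rw [pow_succ, Units.val_mul, ih, hy]
        push_cast
        linear_combination (N * y * y) * hsq
    have hcop : Nat.Coprime y.val l := by
      rw [Nat.coprime_comm]; exact (Nat.Prime.coprime_iff_not_dvd hl).2 hly
    obtain ⟨N, hN⟩ : ∃ N : ℕ, N * y.val ≡ z.val [MOD l] := by
      obtain ⟨b, hb⟩ := Nat.exists_mul_mod_eq_one_of_coprime hcop hl.one_lt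
      refine ⟨z.val * b, ?_⟩
      have : y.val * b ≡ 1 [MOD l] := by
        rw [Nat.ModEq, hb.2, Nat.mod_eq_of_lt hl.one_lt]
      calc z.val * b * y.val = z.val * (y.val * b) := by ring
        _ ≡ z.val * 1 [MOD l] := this.mul_left _
        _ = z.val := mul_one _
    have hun : u = Y ^ N := by
      apply Units.ext
      rw [hpow, hz]
      congr 1
      have h3 : ((n / l * (N * y.val) : ℕ) : ZMod n) = ((n / l * z.val : ℕ) : ZMod n) := by
        rw [ZMod.natCast_eq_natCast_iff]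
        have := hN.mul_left' (n / l)
        rwa [hnl] at this
      rw [Nat.cast_mul, Nat.cast_mul, Nat.cast_mul] at h3
      rw [ZMod.natCast_zmod_val, ZMod.natCast_zmod_val] at h3
      exact h3.symm
    rw [hun, map_pow, hχY, one_pow]
  · -- `j = 1`
    exfalso
    have hj : j = 1 := by omega
    subst hj
    apply hY1
    have h1 : ZMod.unitsMap hln Y = 1 := by
      rw [hYW]; exact pow_q_one hl1 hl hln _
    have h2 : ZMod.unitsMap (dvd_refl n) Y = 1 := by
      rw [unitsMap_eq_one_iff] at h1 hYn1 ⊢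
      rw [pow_one] at hnj
      conv_lhs => rw [hnj]
      push_cast
      apply IsCoprime.mul_dvd _ h1 hYn1
      exact Nat.isCoprime_iff_coprime.2 ((Nat.Prime.coprime_iff_not_dvd hl).2 hln1)
    have h3 : ZMod.unitsMap (dvd_refl n) = MonoidHom.id _ := ZMod.unitsMap_self n
    rw [h3] at h2
    exact h2

include hl1 h4 in
/-- elements of `G1` congruent to `1` modulo all prime factors (and `4`) -/
theorem mem_ker_of_cong (hq : 1 < q) {a : (ZMod n)ˣ} (ha : a ^ (q - 1) = 1)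
    (h1 : ∀ l : ℕ, l.Prime → ∀ hd : l ∣ n, ZMod.unitsMap hd a = 1)
    (h2 : ∀ hd : 2 ^ 2 ∣ n, ZMod.unitsMap hd a = 1)
    (hd : n / Nat.gcd n (q - 1) ∣ n) : ZMod.unitsMap hd a = 1 := by
  have hn : 0 < n := Nat.pos_of_ne_zero (NeZero.ne n)
  apply gather
  intro l k' hlk hl hk'
  have hne : NeZero (l ^ (n.factorization l)) := ⟨pow_ne_zero _ hl.ne_zero⟩
  have hln : l ∣ n := ((dvd_pow_self l (by omega)).trans hlk).trans hd
  set j := n.factorization l with hj
  set e := (q - 1).factorization l with he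
  have hdj : l ^ j ∣ n := Nat.ordProj_dvd n l
  have hq0 : q - 1 ≠ 0 := by omega
  -- `k' ≤ j - e`
  have hk : k' ≤ j - e := by
    have h3 : l ^ k' * Nat.gcd n (q - 1) ∣ n := by
      have := Nat.mul_dvd_mul_right hlk (Nat.gcd n (q - 1))
      rwa [Nat.div_mul_cancel (Nat.gcd_dvd_left _ _)] at this
    have h5 : l ^ (k' + min j e) ∣ n := by
      rw [pow_add]
      refine (Nat.mul_dvd_mul_left _ ?_).trans h3
      apply Nat.dvd_gcd
      · exact (pow_dvd_pow l (min_le_left _ _)).trans hdj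
      · exact (pow_dvd_pow l (min_le_right _ _)).trans (Nat.ordProj_dvd _ l)
    rw [hl.pow_dvd_iff_le_factorization hn.ne'] at h5
    omega
  have hpi : ZMod.unitsMap hdj a ∈ H l j (j - e) (Nat.sub_le _ _) := by
    have hord : ∀ {m : ℕ}, 1 ≤ m → (l = 2 → 2 ≤ m) → ∀ hm : m ≤ j,
        ZMod.unitsMap hdj a ∈ H l j m hm → ZMod.unitsMap hdj a ∈ H l j (j - e) (Nat.sub_le _ _) := by
      intro m hm1 hm2 hm hmem
      refine mem_of_pow_eq_one hl hm1 hm2 hm hmem ?_
      have h3 := pow_eq_one_of_mem hl hm1 hm2 hm hmem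
      have h5 : (ZMod.unitsMap hdj a) ^ (q - 1) = 1 := by rw [← map_pow, ha, map_one]
      have h6 := Nat.dvd_gcd (orderOf_dvd_of_pow_eq_one h3) (orderOf_dvd_of_pow_eq_one h5)
      rw [← orderOf_dvd_iff_pow_eq_one]
      refine h6.trans ?_
      have h7 : Nat.gcd (l ^ (j - m)) (q - 1) ∣ l ^ (j - m) := Nat.gcd_dvd_left _ _
      obtain ⟨i, hi, hgi⟩ := (Nat.dvd_prime_pow hl).1 h7
      rw [hgi]
      apply pow_dvd_pow
      have h8 : l ^ i ∣ q - 1 := by rw [← hgi]; exact Nat.gcd_dvd_right _ _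
      rwa [hl.pow_dvd_iff_le_factorization hq0] at h8
    by_cases hl2 : l = 2
    · by_cases hj2 : 2 ≤ j
      · refine hord (m := 2) (by norm_num) (fun _ => le_rfl) hj2 ?_
        unfold H
        rw [MonoidHom.mem_ker, unitsMap_comp']
        have h22 : l ^ 2 ∣ n := (pow_dvd_pow l hj2).trans hdj
        have h23 : 2 ^ 2 ∣ n := by rwa [hl2] at h22
        exact congr_mod (by rw [hl2]) _ _ (h2 h23)
      · -- `j ≤ 1`, `e ≥ 1`
        have he1 : 1 ≤ e := by
          have h3 : l ^ 1 ∣ q - 1 := by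
            rw [pow_one, hl2]; exact (by norm_num : 2 ∣ 4).trans h4
          rwa [hl.pow_dvd_iff_le_factorization hq0] at h3
        have : j - e = 0 := by omega
        unfold H
        rw [MonoidHom.mem_ker, unitsMap_comp', unitsMap_eq_one_iff, this]
        simp
    · have hj1 : 1 ≤ j := by
        have h3 : l ^ 1 ∣ n := by rwa [pow_one]
        rwa [hl.pow_dvd_iff_le_factorization hn.ne'] at h3
      refine hord (m := 1) (by norm_num) (fun h => absurd h hl2) hj1 ?_
      unfold H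
      rw [MonoidHom.mem_ker, unitsMap_comp']
      exact congr_mod (pow_one l).symm _ _ (h1 l hl hln)
  unfold H at hpi
  rw [MonoidHom.mem_ker, unitsMap_comp'] at hpi
  exact mono _ (pow_dvd_pow l hk) hpi

end G1

end Pool.Agent.GP.NV2
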