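import Pool.Agent.GP.NV2.Torsion
import Pool.Agent.GP.NV2.Comp

/-!
# The index of an element of `G1` at one prime
-/

open Finset

namespace Pool.Agent.GP.NV2

/-- elements of `H m` killed by `q - 1` -/
theorem mem_H_of_pow {l j m q : ℕ} [NeZero (l ^ j)] (hl : l.Prime) (hq : 1 < q) (hm1 : 1 ≤ m)
    (hm2 : l = 2 → 2 ≤ m) (hm : m ≤ j) {x : (ZMod (l ^ j))ˣ} (hx : x ∈ H l j m hm)
    (hxq : x ^ (q - 1) = 1) : x ∈ H l j (j - (q - 1).factorization l) (Nat.sub_le _ _) := by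
  refine mem_of_pow_eq_one hl hm1 hm2 hm hx ?_
  have h3 := pow_eq_one_of_mem hl hm1 hm2 hm hx
  have h6 := Nat.dvd_gcd (orderOf_dvd_of_pow_eq_one h3) (orderOf_dvd_of_pow_eq_one hxq)
  rw [← orderOf_dvd_iff_pow_eq_one]
  refine h6.trans ?_
  have h7 : Nat.gcd (l ^ (j - m)) (q - 1) ∣ l ^ (j - m) := Nat.gcd_dvd_left _ _
  obtain ⟨i, hi, hgi⟩ := (Nat.dvd_prime_pow hl).1 h7
  rw [hgi]
  apply pow_dvd_pow
  have h8 : l ^ i ∣ q - 1 := by rw [← hgi]; exact Nat.gcd_dvd_right _ _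
  rwa [hl.pow_dvd_iff_le_factorization (by omega)] at h8

/-- the torsion data modulo `M = l ^ (j - e)` -/
structure Idx (n q l M mT : ℕ) (hM : M ∣ n) (t : (ZMod M)ˣ) : Prop where
  pos : 0 < mT
  neg : t ^ mT = -1
  cover : ∀ a : (ZMod n)ˣ, a ^ (q - 1) = 1 → ∃ i < 2 * mT, ZMod.unitsMap hM a = t ^ i
  inj : ∀ i i', i < 2 * mT → i' < 2 * mT → t ^ i = t ^ i' → i = i'
  cyc : (Polynomial.cyclotomic (2 * mT) (ZMod M)).eval (t : ZMod M) = 0
  tot : (2 * mT).totient ≤ l - 1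

theorem exists_idx {n q l : ℕ} [NeZero n] (hl : l.Prime) (hln : l ∣ n) (hq : 1 < q)
    (hl1 : l * (l - 1) ∣ q - 1) (h4 : 4 ∣ q - 1)
    (hj : 2 ≤ n.factorization l - (q - 1).factorization l)
    (hM : l ^ (n.factorization l - (q - 1).factorization l) ∣ n) :
    ∃ (mT : ℕ) (t : (ZMod (l ^ (n.factorization l - (q - 1).factorization l)))ˣ),
      Idx n q l (l ^ (n.factorization l - (q - 1).factorization l)) mT hM t := by
  set j := n.factorization l with hjdef
  set e := (q - 1).factorization l with he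
  have hne : NeZero (l ^ j) := ⟨pow_ne_zero _ hl.ne_zero⟩
  have hne' : NeZero (l ^ (j - e)) := ⟨pow_ne_zero _ hl.ne_zero⟩
  have hn : 0 < n := Nat.pos_of_ne_zero (NeZero.ne n)
  have hdj : l ^ j ∣ n := Nat.ordProj_dvd n l
  have hdd : l ^ (j - e) ∣ l ^ j := pow_dvd_pow l (Nat.sub_le _ _)
  obtain ⟨m0, mT, hm, t, hT, hm01, hm02, hm0e, hcyc, htot, hdvd⟩ : ∃ (m0 mT : ℕ) (hm : m0 ≤ j)
      (t : (ZMod (l ^ j))ˣ), Tor l j m0 mT hm t ∧ 1 ≤ m0 ∧ (l = 2 → 2 ≤ m0) ∧ m0 ≤ j - e ∧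
      (Polynomial.cyclotomic (2 * mT) (ZMod (l ^ j))).eval (t : ZMod (l ^ j)) = 0 ∧
      (2 * mT).totient ≤ l - 1 ∧ 2 * mT ∣ q - 1 := by
    by_cases hl2 : l = 2
    · have hj2 : 2 ≤ j := by omega
      have hT2 := exists_tor_two hj2
      have key : ∃ t : (ZMod (l ^ j))ˣ, Tor l j 2 1 hj2 t ∧
          (Polynomial.cyclotomic (2 * 1) (ZMod (l ^ j))).eval (t : ZMod (l ^ j)) = 0 := by
        have gen : ∀ l' : ℕ, l' = 2 → ∃ t : (ZMod (l' ^ j))ˣ, Tor l' j 2 1 hj2 t ∧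
            (Polynomial.cyclotomic (2 * 1) (ZMod (l' ^ j))).eval (t : ZMod (l' ^ j)) = 0 := by
          rintro l' rfl
          refine ⟨-1, hT2, ?_⟩
          rw [mul_one, Polynomial.cyclotomic_two]
          simp
        exact gen l hl2
      obtain ⟨t, ht, hc⟩ := key
      refine ⟨2, 1, hj2, t, ht, by norm_num, fun _ => le_rfl, hj, hc, ?_, ?_⟩
      · rw [hl2]; decide
      · exact (by norm_num : 2 * 1 ∣ 4).trans h4
    · have hj1 : 1 ≤ j := by omega
      obtain ⟨t, ht, hc⟩ := exists_tor_odd hl hl2 hj1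
      have hl3 : 3 ≤ l := by
        have := hl.two_le
        omega
      have hlodd := hl.odd_of_ne_two hl2
      obtain ⟨b, hb⟩ := hlodd
      have hhalf : 2 * ((l - 1) / 2) = l - 1 := by omega
      refine ⟨1, (l - 1) / 2, hj1, t, ht, le_rfl, fun h => absurd h hl2, by omega, ?_, ?_, ?_⟩
      · rw [hhalf]; exact hc
      · rw [hhalf]; exact Nat.totient_le _
      · rw [hhalf]; exact (Dvd.intro_left _ rfl).trans hl1
  refine ⟨mT, ZMod.unitsMap hdd t, hT.pos, ?_, ?_, ?_, ?_, htot⟩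
  · rw [← map_pow, hT.neg]
    apply Units.ext
    rw [ZMod.unitsMap_val, Units.val_neg, Units.val_one, Units.val_neg, Units.val_one]
    have : ((-1 : ZMod (l ^ j)).cast : ZMod (l ^ (j - e))) =
      ZMod.castHom hdd (ZMod (l ^ (j - e))) (-1) := rfl
    rw [this, map_neg, map_one]
  · intro a ha
    obtain ⟨i, hi, hx⟩ := hT.cover (ZMod.unitsMap hdj a)
    refine ⟨i, hi, ?_⟩
    have h1 : (ZMod.unitsMap hdj a * (t ^ i)⁻¹) ^ (q - 1) = 1 := by
      obtain ⟨b, hb⟩ := hdvd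
      have e1 : (t ^ i) ^ (q - 1) = 1 := by
        rw [hb, ← pow_mul, mul_comm i, mul_assoc, pow_mul, hT.two, one_pow]
      rw [mul_pow, inv_pow, e1, inv_one, mul_one, ← map_pow, ha, map_one]
    have h2 := mem_H_of_pow hl hq hm01 hm02 hm hx h1
    unfold H at h2
    rw [MonoidHom.mem_ker, map_mul, map_inv, mul_inv_eq_one, unitsMap_comp'] at h2
    rw [h2, map_pow]
  · have key : ∀ i i', i ≤ i' → i' < 2 * mT →
        (ZMod.unitsMap hdd t) ^ i = (ZMod.unitsMap hdd t) ^ i' → i = i' := by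
      intro i i' hii hi' h
      have h1 : (ZMod.unitsMap hdd t) ^ (i' - i) = 1 := by
        have h2 : (ZMod.unitsMap hdd t) ^ i' =
            (ZMod.unitsMap hdd t) ^ i * (ZMod.unitsMap hdd t) ^ (i' - i) := by
          rw [← pow_add]; congr 1; omega
        rw [h2] at h
        exact (left_eq_mul.1 h)
      have h3 : t ^ (i' - i) ∈ H l j (j - e) (Nat.sub_le _ _) := by
        unfold H
        rw [MonoidHom.mem_ker, map_pow]
        exact h1
      have h5 := hT.inj _ (H_mono hm _ hm0e h3)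
      rcases Nat.eq_zero_or_pos (i' - i) with h0 | h0
      · omega
      · have := Nat.le_of_dvd h0 h5
        omega
    intro i i' hi hi' h
    rcases le_total i i' with hle | hle
    · exact key i i' hle hi' h
    · exact (key i' i hle hi h.symm).symm
  · have h1 : ((ZMod.unitsMap hdd t : (ZMod (l ^ (j - e)))ˣ) : ZMod (l ^ (j - e))) =
        ZMod.castHom hdd (ZMod (l ^ (j - e))) (t : ZMod (l ^ j)) := by
      rw [ZMod.unitsMap_val, ZMod.castHom_apply]
    rw [h1, ← Polynomial.map_cyclotomic (2 * mT) (ZMod.castHom hdd (ZMod (l ^ (j - e)))),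
      Polynomial.eval_map, Polynomial.eval₂_hom, hcyc, map_zero]

section half

variable {n q l M mT : ℕ} {hM : M ∣ n} {t : (ZMod M)ˣ}

open Classical in
/-- the half sum -/
theorem half_sum [NeZero n] (hI : Idx n q l M mT hM t) (hq : Even (q - 1)) {K : Type*} [Field K]
    (h2 : (2 : K) ≠ 0) (F : (ZMod n)ˣ → K) (hF : ∀ a, F (-a) = F a)
    (h0 : ∑ a ∈ univ.filter (fun a : (ZMod n)ˣ => a ^ (q - 1) = 1), F a = 0) :
    ∑ a ∈ (univ.filter (fun a : (ZMod n)ˣ => a ^ (q - 1) = 1)).filter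
      (fun a => ∃ i < mT, ZMod.unitsMap hM a = t ^ i), F a = 0 := by
  set G1 := univ.filter (fun a : (ZMod n)ˣ => a ^ (q - 1) = 1) with hG1
  have hmap : ∀ a : (ZMod n)ˣ, ZMod.unitsMap hM (-a) = - ZMod.unitsMap hM a := by
    intro a
    apply Units.ext
    rw [ZMod.unitsMap_val, Units.val_neg, Units.val_neg, ZMod.unitsMap_val]
    have h1 : ∀ x : ZMod n, (x.cast : ZMod M) = ZMod.castHom hM (ZMod M) x := fun x => rfl
    rw [h1, h1, map_neg]
  have hsplit := Finset.sum_filter_add_sum_filter_not G1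
    (fun a => ∃ i < mT, ZMod.unitsMap hM a = t ^ i) F
  have hsym : ∑ a ∈ G1.filter (fun a => ¬ ∃ i < mT, ZMod.unitsMap hM a = t ^ i), F a =
      ∑ a ∈ G1.filter (fun a => ∃ i < mT, ZMod.unitsMap hM a = t ^ i), F a := by
    refine Finset.sum_bij' (fun a _ => -a) (fun a _ => -a) ?_ ?_ (fun a _ => neg_neg a)
      (fun a _ => neg_neg a) (fun a _ => (hF a).symm)
    · intro a ha
      rw [Finset.mem_filter, hG1, Finset.mem_filter] at ha ⊢
      refine ⟨⟨Finset.mem_univ _, by rw [hq.neg_pow]; exact ha.1.2⟩, ?_⟩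
      obtain ⟨i, hi, hai⟩ := hI.cover a ha.1.2
      have hi2 : mT ≤ i := by
        by_contra hcon
        push Not at hcon
        exact ha.2 ⟨i, hcon, hai⟩
      refine ⟨i - mT, by omega, ?_⟩
      rw [hmap, hai]
      have : t ^ i = t ^ (i - mT) * t ^ mT := by rw [← pow_add]; congr 1; omega
      rw [this, hI.neg]
      simp
    · intro a ha
      rw [Finset.mem_filter, hG1, Finset.mem_filter] at ha ⊢
      refine ⟨⟨Finset.mem_univ _, by rw [hq.neg_pow]; exact ha.1.2⟩, ?_⟩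
      obtain ⟨i, hi, hai⟩ := ha.2
      rintro ⟨i', hi', hai'⟩
      rw [hmap, hai] at hai'
      have h1 : t ^ (i + mT) = t ^ i' := by
        rw [pow_add, hI.neg, ← hai']
        simp
      have := hI.inj _ _ (by omega) (by omega) h1
      omega
  rw [h0, hsym] at hsplit
  have h3 : 2 * ∑ a ∈ G1.filter (fun a => ∃ i < mT, ZMod.unitsMap hM a = t ^ i), F a = 0 := by
    linear_combination hsplit
  exact (mul_eq_zero.1 h3).resolve_left h2

end half

end Pool.Agent.GP.NV2
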