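import Pool.Agent.GP.NV2.Star
import Pool.Agent.GP.NV2.Index

/-!
# The sums over `G1` and its half
-/

open Finset

namespace Pool.Agent.GP.NV2

section prim

variable {K : Type} [Field K] {n : ℕ} [NeZero n]

theorem prim_exists (ψ : DirichletCharacter K n) (hψ : ψ.IsPrimitive) (l : ℕ) (hl : l.Prime)
    (hd : n / l ∣ n) : ∃ u : (ZMod n)ˣ, ZMod.unitsMap hd u = 1 ∧ ψ (u : ZMod n) ≠ 1 := by
  by_contra hcon
  push Not at hcon
  have hfac : ψ.FactorsThrough (n / l) := by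
    rw [DirichletCharacter.factorsThrough_iff_ker_unitsMap hd]
    intro u hu
    rw [MonoidHom.mem_ker] at hu ⊢
    apply Units.ext
    rw [MulChar.coe_toUnitHom, Units.val_one]
    exact hcon u hu
  have h1 : ψ.conductor ≤ n / l := Nat.sInf_le hfac
  rw [(DirichletCharacter.isPrimitive_def ψ).1 hψ] at h1
  have : n / l < n := Nat.div_lt_self (Nat.pos_of_ne_zero (NeZero.ne n)) hl.one_lt
  omega

theorem primitive_comp {k : Type} [Field k] (i : k →+* K) (ψ : DirichletCharacter k n)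
    (hψ : ψ.IsPrimitive) : DirichletCharacter.IsPrimitive (ψ.ringHomComp i) := by
  set ψ' : DirichletCharacter K n := ψ.ringHomComp i with hψ'
  rw [DirichletCharacter.isPrimitive_def] at hψ ⊢
  have h1 := ψ'.factorsThrough_conductor
  have hd := ψ'.conductor_dvd_level
  have h2 : ψ.FactorsThrough ψ'.conductor := by
    rw [DirichletCharacter.factorsThrough_iff_ker_unitsMap hd] at h1 ⊢
    intro u hu
    have := h1 hu
    rw [MonoidHom.mem_ker] at this ⊢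
    apply Units.ext
    rw [MulChar.coe_toUnitHom, Units.val_one]
    apply i.injective
    have h3 := congrArg Units.val this
    rw [MulChar.coe_toUnitHom, Units.val_one] at h3
    rw [map_one]
    exact h3
  have h3 : ψ.conductor ≤ ψ'.conductor := Nat.sInf_le h2
  rw [hψ] at h3
  have h4 := Nat.le_of_dvd (Nat.pos_of_ne_zero (NeZero.ne n)) hd
  omega

/-- the homomorphism `a ↦ ψ(a)⁻¹` -/
noncomputable def chi (ψ : DirichletCharacter K n) : (ZMod n)ˣ →* K :=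
  (Units.coeHom K).comp (ψ⁻¹).toUnitHom

theorem chi_apply (ψ : DirichletCharacter K n) (a : (ZMod n)ˣ) :
    chi ψ a = ψ⁻¹ (a : ZMod n) := by
  have h : chi ψ a = (((ψ⁻¹).toUnitHom a : Kˣ) : K) := rfl
  rw [h, MulChar.coe_toUnitHom]

theorem chi_exists (ψ : DirichletCharacter K n) (hψ : ψ.IsPrimitive) (l : ℕ) (hl : l.Prime)
    (hd : n / l ∣ n) : ∃ u : (ZMod n)ˣ, ZMod.unitsMap hd u = 1 ∧ chi ψ u ≠ 1 := by
  obtain ⟨u, hu, h⟩ := prim_exists ψ hψ l hl hd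
  refine ⟨u, hu, ?_⟩
  rw [chi_apply, MulChar.inv_apply_eq_inv']
  intro h2
  exact h (inv_eq_one.1 h2)

end prim

section G1sum

variable {p : ℕ} [Fact p.Prime] {K : Type} [Field K] [CharP K p] {n : ℕ} [NeZero n] {y : K}
  (hy : IsPrimitiveRoot y n) {D r : ℕ} {δ : K} {n' : ℕ} (hDn : Nat.Coprime D n)
  (hδ : (Odd n ∧ δ = -1 ∧ n' = n) ∨ (δ = 1 ∧ 2 * n' = n))
  {c : ℕ → K} (hper : ∀ d, c (d + D) = δ * c d)

omit [Fact p.Prime] in
theorem two_ne (hp : p.Prime) (hp2 : p ≠ 2) : (2 : K) ≠ 0 := by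
  intro h
  have h1 : ((2 : ℕ) : K) = 0 := by exact_mod_cast h
  rw [CharP.cast_eq_zero_iff K p] at h1
  exact hp2 ((Nat.prime_dvd_prime_iff_eq hp Nat.prime_two).1 h1)

omit [Fact p.Prime] [CharP K p] [NeZero n] in
include hδ in
theorem delta_sq : δ * δ = 1 := by
  rcases hδ with ⟨_, h, _⟩ | ⟨h, _⟩ <;> rw [h] <;> ring

omit [Fact p.Prime] [CharP K p] [NeZero n] in
include hδ in
theorem delta_pow {m : ℕ} (hm : Odd m) : δ ^ m = δ := by
  rcases hδ with ⟨_, h, _⟩ | ⟨h, _⟩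
  · rw [h, hm.neg_one_pow]
  · rw [h, one_pow]

omit [NeZero n] in
theorem frob_one {x : K} {s : ℕ} (h : x ^ (p ^ s) = 1) : x = 1 := by
  have h1 : (x - 1) ^ (p ^ s) = 0 := by
    rw [sub_pow_char_pow, h, one_pow, sub_self]
  exact sub_eq_zero.1 ((pow_eq_zero_iff (pow_pos (Fact.out : p.Prime).pos s).ne').1 h1)

open Classical in
include hDn hδ hper in
theorem G1_sum (hpn : ¬ p ∣ n) (hp2 : p ≠ 2) (hq1 : 1 < p ^ r) (h4 : 4 ∣ p ^ r - 1)
    {Q s : ℕ} (hQ : Q - 1 = (p ^ r - 1) * p ^ s)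
    (hl1 : ∀ l : ℕ, l.Prime → l ∣ n → l * (l - 1) ∣ Q - 1)
    (ψ : DirichletCharacter K n) (hψ : ψ.IsPrimitive) (hq : ∀ d, c d ^ (p ^ r) = c d)
    (hsum : ∑ d ∈ Finset.range (n' * D), c d * ψ (d : ZMod n) = 0) (b : (ZMod n)ˣ) :
    ∑ a ∈ univ.filter (fun a : (ZMod n)ˣ => a ^ (Q - 1) = 1),
      chi ψ a * R D δ c (ec hy ((a * b : (ZMod n)ˣ) : ZMod n)) = 0 := by
  have hp : p.Prime := Fact.out
  have hn0 : 0 < n := Nat.pos_of_ne_zero (NeZero.ne n)
  have h2 : (2 : K) ≠ 0 := two_ne hp hp2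
  have hps : 0 < p ^ s := pow_pos hp.pos s
  have hQ1 : 1 < Q := by
    have : 0 < (p ^ r - 1) * p ^ s := Nat.mul_pos (by omega) hps
    omega
  have h4Q : 4 ∣ Q - 1 := by rw [hQ]; exact h4.mul_right _
  have hodd : Odd (p ^ r) := by
    obtain ⟨b, hb⟩ := h4
    refine ⟨2 * b, by omega⟩
  have hcop : Nat.Coprime (p ^ r) n :=
    Nat.Coprime.pow_left _ ((Nat.Prime.coprime_iff_not_dvd hp).2 hpn)
  have h0 := gauss_sum_zero hy ψ hψ c (n' * D) hsum
  have hA : ∀ a : (ZMod n)ˣ, A (n' * D) c (ec hy (a : ZMod n)) =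
      2 * R D δ c (ec hy (a : ZMod n)) := by
    intro a
    have h1 := A_mul hper (ec hy (a : ZMod n)) n'
    rw [denom_pow hy hDn hδ a] at h1
    have h3 := denom_ne hy hDn hδ h2 a
    unfold R
    rw [mul_div_assoc', eq_div_iff h3, mul_comm, h1]
    ring
  have h5 : ∑ a : (ZMod n)ˣ, chi ψ a * R D δ c (ec hy (a : ZMod n)) = 0 := by
    have h6 : 2 * ∑ a : (ZMod n)ˣ, chi ψ a * R D δ c (ec hy (a : ZMod n)) = 0 := by
      rw [← h0, Finset.mul_sum]
      apply Finset.sum_congr rfl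
      intro a _
      rw [hA a, chi_apply]
      ring
    exact (mul_eq_zero.1 h6).resolve_left h2
  have hnK : (n : K) ≠ 0 := by
    intro h
    rw [CharP.cast_eq_zero_iff K p] at h
    exact hpn h
  have hlq : ∀ l : ℕ, l.Prime → l ∣ n → l ∣ p ^ r - 1 := by
    intro l hl hd
    have h6 : l ∣ (p ^ r - 1) * p ^ s := by
      rw [← hQ]
      exact (Dvd.intro _ rfl).trans (hl1 l hl hd)
    rcases (Nat.Prime.dvd_mul hl).1 h6 with h7 | h7
    · exact h7
    · have h8 := hl.dvd_of_dvd_pow h7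
      rw [Nat.prime_dvd_prime_iff_eq hl hp] at h8
      rw [h8] at hd
      exact absurd hd hpn
  have hχ1 : ∀ x : K, x ^ (Q - 1) = 1 → x ^ (p ^ r - 1) = 1 := by
    intro x hx
    rw [hQ, pow_mul] at hx
    exact frob_one hx
  have h7 := avg' (p := p) (r := r) (chi ψ) (fun a : (ZMod n)ˣ => R D δ c (ec hy (a : ZMod n)))
    (ZMod.unitOfCoprime (p ^ r) hcop) hn0 hq1 (fun _ => h4) hlq hnK
    (fun a => by
      have h8 : chi ψ a ^ ((Q - 1) * n) = 1 := by
        rw [← map_pow, units_pow_exp hn0 hl1, map_one]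
      rw [hQ, mul_right_comm, pow_mul] at h8
      exact frob_one h8)
    (fun a => by
      show R D δ c (ec hy (a : ZMod n)) ^ (p ^ r) = _
      rw [R_frob (delta_pow hδ hodd) hq, ec_pow, Units.val_mul, ZMod.coe_unitOfCoprime]) h5 b
  rw [← h7]
  apply Finset.sum_congr _ (fun _ _ => rfl)
  ext a
  simp only [Finset.mem_filter, Finset.mem_univ, true_and]
  constructor
  · intro h
    apply hχ1
    rw [← map_pow, h, map_one]
  · intro h
    refine pow_eq_one_of_char hl1 h4Q hQ1 (chi ψ) (fun l hl hd _ => chi_exists ψ hψ l hl hd) a ?_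
    rw [hQ, pow_mul, h, one_pow]

theorem ec_neg (a : ZMod n) : ec hy (-a) = (ec hy a)⁻¹ := by
  apply eq_inv_of_mul_eq_one_left
  rw [← AddChar.map_add_eq_mul, neg_add_cancel, AddChar.map_zero_eq_one]

open Classical in
include hDn hδ hper in
theorem half_G1_sum (hpn : ¬ p ∣ n) (hp2 : p ≠ 2) (hq1 : 1 < p ^ r) (h4 : 4 ∣ p ^ r - 1)
    {Q s : ℕ} (hQ : Q - 1 = (p ^ r - 1) * p ^ s)
    (hl1 : ∀ l : ℕ, l.Prime → l ∣ n → l * (l - 1) ∣ Q - 1)
    (ψ : DirichletCharacter K n) (hψ : ψ.IsPrimitive) (hq : ∀ d, c d ^ (p ^ r) = c d)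
    (hc0 : c 0 = 0) (hpar : ∀ d, d ≤ D → c (D - d) = -(δ * ψ (-1) * c d))
    (hsum : ∑ d ∈ Finset.range (n' * D), c d * ψ (d : ZMod n) = 0)
    {l M mT : ℕ} {hM : M ∣ n} {t : (ZMod M)ˣ} (hI : Idx n Q l M mT hM t) (b : (ZMod n)ˣ) :
    ∑ a ∈ (univ.filter (fun a : (ZMod n)ˣ => a ^ (Q - 1) = 1)).filter
      (fun a => ∃ i < mT, ZMod.unitsMap hM a = t ^ i),
      chi ψ a * R D δ c (ec hy ((a * b : (ZMod n)ˣ) : ZMod n)) = 0 := by
  have hp : p.Prime := Fact.out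
  have h2 : (2 : K) ≠ 0 := two_ne hp hp2
  have hev : Even (Q - 1) := by
    rw [hQ]
    obtain ⟨b, hb⟩ := h4
    rw [hb]
    exact ⟨2 * b * p ^ s, by ring⟩
  apply half_sum hI hev h2 (fun a : (ZMod n)ˣ =>
    chi ψ a * R D δ c (ec hy ((a * b : (ZMod n)ˣ) : ZMod n)))
  · intro a
    show chi ψ (-a) * R D δ c (ec hy ((-a * b : (ZMod n)ˣ) : ZMod n)) =
      chi ψ a * R D δ c (ec hy ((a * b : (ZMod n)ˣ) : ZMod n))
    have e1 : ((-a * b : (ZMod n)ˣ) : ZMod n) = -((a * b : (ZMod n)ˣ) : ZMod n) := by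
      push_cast; ring
    have h3 := denom_ne hy hDn hδ h2 (a * b)
    have h3' := denom_ne hy hDn hδ h2 (-a * b)
    rw [e1, ec_neg] at h3'
    rw [e1, ec_neg, R_inv (delta_sq hδ) hc0 hper hpar (ec_ne_zero hy _) h3 h3']
    have e2 : chi ψ (-a) = (ψ (-1))⁻¹ * chi ψ a := by
      have : -a = -1 * a := by rw [neg_one_mul]
      rw [this, map_mul, chi_apply, MulChar.inv_apply_eq_inv', Units.val_neg, Units.val_one]
    have e3 : ψ (-1) ≠ 0 := by
      have : ψ (-1) * ψ (-1) = 1 := by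
        rw [← map_mul]; simp
      exact left_ne_zero_of_mul_eq_one this
    rw [e2]
    field_simp
  · exact G1_sum hy hDn hδ hper hpn hp2 hq1 h4 hQ hl1 ψ hψ hq hsum b

end G1sum

end Pool.Agent.GP.NV2
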