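import Pool.Agent.GP.NV2.Gauss
import Pool.Agent.GP.NV2.Comp

/-!
# The values at `y ^ (a b)`, `b = 1 + E c'`
-/

open Finset

namespace Pool.Agent.GP.NV2

section eval

variable {K : Type} [Field K] {n : ℕ} [NeZero n] {y : K} (hy : IsPrimitiveRoot y n)

theorem ec_natCast (m : ℕ) : ec hy (m : ZMod n) = y ^ m := by
  unfold ec
  rw [AddChar.zmodChar_apply']

include hy in
omit [NeZero n] in
/-- `y ^ E` -/
theorem primitive_pow_E {E N2 : ℕ} (hn0 : 0 < n) (hn : n = E * N2) :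
    IsPrimitiveRoot (y ^ E) N2 :=
  hy.pow hn0 hn

theorem ec_red {E N2 : ℕ} [NeZero N2] (hn : n = E * N2) (hd : N2 ∣ n) (a : ZMod n) :
    ec hy ((E : ZMod n) * a) = ec (primitive_pow_E hy (Nat.pos_of_ne_zero (NeZero.ne n)) hn) (ZMod.castHom hd (ZMod N2) a) := by
  have h1 : (E : ZMod n) * a = ((E * a.val : ℕ) : ZMod n) := by
    push_cast
    rw [ZMod.natCast_zmod_val]
  have h2 : ZMod.castHom hd (ZMod N2) a = ((a.val : ℕ) : ZMod N2) := by
    conv_lhs => rw [← ZMod.natCast_zmod_val a]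
    rw [map_natCast]
  rw [h1, h2, ec_natCast, ec_natCast, pow_mul]

/-- the value at a shifted point -/
theorem ec_shift {E N2 : ℕ} [NeZero N2] (hn : n = E * N2) (hd : N2 ∣ n) (a : ZMod n) (m d : ℕ) :
    ec hy (a * (1 + (E : ZMod n) * m)) ^ d =
      ec hy a ^ d * (ec (primitive_pow_E hy (Nat.pos_of_ne_zero (NeZero.ne n)) hn) (ZMod.castHom hd (ZMod N2) a) ^ d) ^ m := by
  rw [← ec_red hy hn hd, ← pow_mul, ec_pow, ec_pow, ec_pow, ← AddChar.map_add_eq_mul]
  congr 1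
  push_cast
  ring

theorem ec_shift_L {E N2 : ℕ} [NeZero N2] (hn : n = E * N2) (hd : N2 ∣ n) (a : ZMod n)
    (m D : ℕ) :
    ec hy (a * (1 + (E : ZMod n) * m)) ^ (E * D) =
      ec (primitive_pow_E hy (Nat.pos_of_ne_zero (NeZero.ne n)) hn) (ZMod.castHom hd (ZMod N2) a) ^ D *
        (ec (primitive_pow_E hy (Nat.pos_of_ne_zero (NeZero.ne n)) hn) (ZMod.castHom hd (ZMod N2) a) ^ (E * D)) ^ m := by
  rw [ec_shift hy hn hd]
  congr 1
  rw [← ec_red hy hn hd, ec_pow, ec_pow]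
  congr 1
  push_cast
  ring

section denom

variable {D : ℕ} {δ : K} {n' : ℕ} (hDn : Nat.Coprime D n)
  (hδ : (Odd n ∧ δ = -1 ∧ n' = n) ∨ (δ = 1 ∧ 2 * n' = n))

include hDn hδ in
theorem denom_pow (a : (ZMod n)ˣ) : (δ * ec hy a ^ D) ^ n' = -1 := by
  rcases hδ with ⟨hodd, h1, h2⟩ | ⟨h1, h2⟩
  · rw [h1, h2, mul_pow, hodd.neg_one_pow, ← pow_mul, mul_comm D, pow_mul, ec_pow,
      ZMod.natCast_self, zero_mul, AddChar.map_zero_eq_one, one_pow, mul_one]
  · have hn : 0 < n := Nat.pos_of_ne_zero (NeZero.ne n)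
    have h3 : (ec hy a) ^ n' = -1 := by
      have h4 : ((ec hy a) ^ n') ^ 2 = 1 := by
        rw [← pow_mul, mul_comm, h2, ec_pow, ZMod.natCast_self, zero_mul,
          AddChar.map_zero_eq_one]
      have h5 : (ec hy a) ^ n' ≠ 1 := by
        intro h
        rw [ec_pow, ec_eq_one, Units.mul_left_eq_zero, ZMod.natCast_eq_zero_iff] at h
        have := Nat.le_of_dvd (by omega) h
        omega
      have h6 : ((ec hy a) ^ n' - 1) * ((ec hy a) ^ n' + 1) = 0 := by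
        linear_combination h4
      rcases mul_eq_zero.1 h6 with h7 | h7
      · exact absurd (sub_eq_zero.1 h7) h5
      · exact eq_neg_of_add_eq_zero_left h7
    have hDodd : Odd D := by
      rw [← Nat.not_even_iff_odd]
      intro he
      have h4 : 2 ∣ Nat.gcd D n := Nat.dvd_gcd he.two_dvd ⟨n', h2.symm⟩
      rw [hDn] at h4
      norm_num at h4
    rw [h1, one_mul, ← pow_mul, mul_comm D, pow_mul, h3, hDodd.neg_one_pow]

include hDn hδ in
theorem denom_ne (h2 : (2 : K) ≠ 0) (a : (ZMod n)ˣ) : 1 - δ * ec hy a ^ D ≠ 0 := by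
  intro h
  have h1 : δ * ec hy a ^ D = 1 := (sub_eq_zero.1 h).symm
  have h3 := denom_pow hy hDn hδ a
  rw [h1, one_pow] at h3
  apply h2
  linear_combination h3

include hDn hδ in
theorem denom_ne_L (h2 : (2 : K) ≠ 0) {E N2 : ℕ} (hn : n = E * N2) (hN2 : 1 < N2)
    (hE : δ ^ E = δ) (a : (ZMod n)ˣ) : 1 - δ * ec hy a ^ (E * D) ≠ 0 := by
  intro h
  have h1 : δ * ec hy a ^ (E * D) = 1 := (sub_eq_zero.1 h).symm
  have h3 : (δ * ec hy a ^ D) ^ E = 1 := by
    rw [mul_pow, hE, ← pow_mul, mul_comm D, h1]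
  rcases hδ with ⟨hodd, h4, h5⟩ | ⟨h4, h5⟩
  · have h6 := denom_pow hy hDn (Or.inl ⟨hodd, h4, h5⟩) a
    have h7 : ∀ N, N = E * N2 → (δ * ec hy a ^ D) ^ N = 1 := by
      rintro N rfl
      rw [pow_mul, h3, one_pow]
    rw [h5, h7 n hn] at h6
    apply h2
    linear_combination h6
  · rw [h4, one_mul, ec_pow, ec_eq_one, Units.mul_left_eq_zero, ZMod.natCast_eq_zero_iff] at h1
    have h1' : E * N2 ∣ E * D := by rwa [← hn]
    have hE0 : 0 < E := by
      rcases Nat.eq_zero_or_pos E with h0 | h0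
      · rw [h0, zero_mul] at hn
        exact absurd hn (NeZero.ne n)
      · exact h0
    rw [Nat.mul_dvd_mul_iff_left hE0] at h1'
    have h7 : N2 ∣ Nat.gcd D n := Nat.dvd_gcd h1' ⟨E, by rw [hn]; ring⟩
    rw [hDn] at h7
    have := Nat.le_of_dvd one_pos h7
    omega

end denom

end eval

end Pool.Agent.GP.NV2
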