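import Pool.Agent.GP.NV2.Interp

/-!
# Clearing denominators and comparing coefficients
-/

open Finset

namespace Pool.Agent.GP.NV2

open Classical in
theorem extract {K : Type*} [Field K] {V : Type*} (S : Finset V) (L : ℕ) (u β γ : V → K)
    (B : V → ℕ → K) (hne : ∀ m : ℕ, ∀ v ∈ S, 1 - γ v * β v ^ m ≠ 0)
    (h : ∀ m : ℕ, ∑ v ∈ S, (∑ d ∈ range L, B v d * (u v ^ d) ^ m) / (1 - γ v * β v ^ m) = 0)
    (W : K) :
    ∑ τ ∈ ((S ×ˢ (range L ×ˢ S.powerset)).filter (fun τ => τ.1 ∉ τ.2.2)).filter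
      (fun τ => u τ.1 ^ τ.2.1 * ∏ v ∈ τ.2.2, β v = W),
      B τ.1 τ.2.1 * ∏ v ∈ τ.2.2, (-γ v) = 0 := by
  refine interp ((S ×ˢ (range L ×ˢ S.powerset)).filter (fun τ => τ.1 ∉ τ.2.2))
    (fun τ => B τ.1 τ.2.1 * ∏ v ∈ τ.2.2, (-γ v))
    (fun τ => u τ.1 ^ τ.2.1 * ∏ v ∈ τ.2.2, β v) ?_ W
  intro m
  have h1 := congrArg (fun x => x * ∏ v ∈ S, (1 - γ v * β v ^ m)) (h m)
  simp only [zero_mul] at h1
  rw [← h1, Finset.sum_filter, Finset.sum_product, Finset.sum_mul]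
  apply Finset.sum_congr rfl
  intro v hv
  rw [Finset.sum_product, ← Finset.mul_prod_erase S _ hv]
  have h2 : (∑ d ∈ range L, B v d * (u v ^ d) ^ m) / (1 - γ v * β v ^ m) *
      ((1 - γ v * β v ^ m) * ∏ v' ∈ S.erase v, (1 - γ v' * β v' ^ m)) =
      (∑ d ∈ range L, B v d * (u v ^ d) ^ m) * ∏ v' ∈ S.erase v, (1 - γ v' * β v' ^ m) := by
    rw [← mul_assoc, div_mul_cancel₀ _ (hne m v hv)]
  rw [h2]
  have h3 : ∏ v' ∈ S.erase v, (1 - γ v' * β v' ^ m) =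
      ∑ J ∈ (S.erase v).powerset, ∏ v' ∈ J, (-γ v' * β v' ^ m) := by
    rw [← Finset.prod_one_add]
    apply Finset.prod_congr rfl
    intro v' _
    ring
  rw [h3, Finset.sum_mul]
  apply Finset.sum_congr rfl
  intro d _
  rw [Finset.mul_sum]
  have h4 : (S.erase v).powerset = S.powerset.filter (fun J => v ∉ J) := by
    ext J
    rw [Finset.mem_powerset, Finset.mem_filter, Finset.mem_powerset, Finset.subset_erase]
  rw [h4, Finset.sum_filter]
  apply Finset.sum_congr rfl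
  intro J _
  by_cases hvJ : v ∈ J
  · simp [hvJ]
  · simp only [hvJ, not_false_eq_true, if_true]
    rw [Finset.prod_mul_distrib, mul_pow, Finset.prod_pow]
    ring

end Pool.Agent.GP.NV2
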