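import Pool.Agent.GP.NV2.Trace

/-!
# The rational function attached to an (anti)periodic coefficient function
-/

open Finset

namespace Pool.Agent.GP.NV2

section ratfun

variable {K : Type*} [Field K] {D : ℕ} {δ : K} {c : ℕ → K}

/-- numerator -/
def A (D : ℕ) (c : ℕ → K) (w : K) : K := ∑ d ∈ range D, c d * w ^ d

/-- the rational function -/
def R (D : ℕ) (δ : K) (c : ℕ → K) (w : K) : K := A D c w / (1 - δ * w ^ D)

theorem c_shift (hper : ∀ d, c (d + D) = δ * c d) (i d : ℕ) : c (i * D + d) = δ ^ i * c d := by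
  induction i with
  | zero => simp
  | succ i ih =>
    have : (i + 1) * D + d = (i * D + d) + D := by ring
    rw [this, hper, ih, pow_succ]
    ring

theorem sum_block (hper : ∀ d, c (d + D) = δ * c d) (w : K) (m : ℕ) :
    A (m * D) c w = A D c w * ∑ i ∈ range m, (δ * w ^ D) ^ i := by
  unfold A
  induction m with
  | zero => simp
  | succ m ih =>
    rw [add_mul, one_mul, sum_range_add, ih, sum_range_succ, mul_add]
    congr 1
    rw [Finset.sum_mul]
    apply Finset.sum_congr rfl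
    intro d _
    rw [c_shift hper, pow_add, mul_comm m D, pow_mul, mul_pow]
    ring

theorem A_mul (hper : ∀ d, c (d + D) = δ * c d) (w : K) (m : ℕ) :
    (1 - δ * w ^ D) * A (m * D) c w = A D c w * (1 - (δ * w ^ D) ^ m) := by
  rw [sum_block hper, ← mul_neg_geom_sum (δ * w ^ D) m]
  ring

theorem R_eq (hper : ∀ d, c (d + D) = δ * c d) {w : K} {m : ℕ} (h1 : 1 - δ * w ^ D ≠ 0)
    (hm : δ ^ m = δ) (h2 : 1 - δ * w ^ (m * D) ≠ 0) :
    R D δ c w = A (m * D) c w / (1 - δ * w ^ (m * D)) := by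
  unfold R
  rw [div_eq_div_iff h1 h2]
  have h3 := A_mul hper w m
  rw [mul_pow, hm, ← pow_mul, mul_comm D m] at h3
  rw [mul_comm (A (m * D) c w)]
  exact h3.symm

theorem R_frob {p : ℕ} [Fact p.Prime] [CharP K p] {r : ℕ} (hδ : δ ^ (p ^ r) = δ)
    (hq : ∀ d, c d ^ (p ^ r) = c d) (w : K) : R D δ c w ^ (p ^ r) = R D δ c (w ^ (p ^ r)) := by
  unfold R A
  rw [div_pow, sum_pow_char_pow, sub_pow_char_pow, one_pow, mul_pow, hδ]
  congr 1
  · apply Finset.sum_congr rfl
    intro d _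
    rw [mul_pow, hq, ← pow_mul, ← pow_mul, mul_comm d]
  · rw [← pow_mul, ← pow_mul, mul_comm D]

theorem R_inv {s : K} (hδ : δ * δ = 1) (hc0 : c 0 = 0) (hper : ∀ d, c (d + D) = δ * c d)
    (hpar : ∀ d, d ≤ D → c (D - d) = -(δ * s * c d)) {w : K} (hw : w ≠ 0)
    (h1 : 1 - δ * w ^ D ≠ 0) (h2 : 1 - δ * w⁻¹ ^ D ≠ 0) : R D δ c w⁻¹ = s * R D δ c w := by
  have hcD : c D = 0 := by
    have := hper 0
    rw [hc0, mul_zero, zero_add] at this
    exact this
  have h3 : A D c w⁻¹ * w ^ D = -(δ * s) * A D c w := by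
    unfold A
    rw [← Finset.sum_range_reflect, Finset.sum_mul]
    have h4 : ∀ d ∈ range D, c (D - 1 - d) * w⁻¹ ^ (D - 1 - d) * w ^ D =
        -(δ * s) * (c (d + 1) * w ^ (d + 1)) := by
      intro d hd
      rw [mem_range] at hd
      have e1 : D - 1 - d = D - (d + 1) := by omega
      rw [e1, hpar (d + 1) (by omega)]
      have e2 : w⁻¹ ^ (D - (d + 1)) * w ^ D = w ^ (d + 1) := by
        have : w ^ D = w ^ (D - (d + 1)) * w ^ (d + 1) := by
          rw [← pow_add]; congr 1; omega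
        rw [this, ← mul_assoc, ← mul_pow, inv_mul_cancel₀ hw, one_pow, one_mul]
      rw [mul_assoc, e2]
      ring
    rw [Finset.sum_congr rfl h4, ← Finset.mul_sum]
    congr 1
    have h5 := Finset.sum_range_succ' (fun d => c d * w ^ d) D
    rw [Finset.sum_range_succ, hcD, hc0, zero_mul, zero_mul, add_zero, add_zero] at h5
    exact h5.symm
  unfold R
  have hwD : w ^ D ≠ 0 := pow_ne_zero _ hw
  have e1 : (1 - δ * w⁻¹ ^ D) * w ^ D = -δ * (1 - δ * w ^ D) := by
    have : w⁻¹ ^ D * w ^ D = 1 := by rw [← mul_pow, inv_mul_cancel₀ hw, one_pow]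
    linear_combination (-δ) * this - (w ^ D) * hδ
  have e2 : A D c w⁻¹ / (1 - δ * w⁻¹ ^ D) = (A D c w⁻¹ * w ^ D) / ((1 - δ * w⁻¹ ^ D) * w ^ D) := by
    rw [mul_div_mul_right _ _ hwD]
  have hδ0 : δ ≠ 0 := left_ne_zero_of_mul_eq_one hδ
  rw [e2, h3, e1]
  field_simp

end ratfun

section gauss

variable {K : Type} [Field K] {n : ℕ} [NeZero n]

/-- the additive character attached to `y` -/
noncomputable def ec {y : K} (hy : IsPrimitiveRoot y n) : AddChar (ZMod n) K :=
  AddChar.zmodChar n hy.pow_eq_one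

theorem ec_pow {y : K} (hy : IsPrimitiveRoot y n) (a : ZMod n) (m : ℕ) :
    ec hy a ^ m = ec hy (m * a) := by
  rw [← AddChar.map_nsmul_eq_pow, nsmul_eq_mul]

theorem ec_eq_one {y : K} (hy : IsPrimitiveRoot y n) (a : ZMod n) :
    ec hy a = 1 ↔ a = 0 := by
  unfold ec
  rw [AddChar.zmodChar_apply, hy.pow_eq_one_iff_dvd, ← ZMod.natCast_eq_zero_iff,
    ZMod.natCast_zmod_val]

theorem ec_ne_zero {y : K} (hy : IsPrimitiveRoot y n) (a : ZMod n) :
    ec hy a ≠ 0 := by
  intro h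
  have := ec_pow hy a n
  rw [h, zero_pow (NeZero.ne _)] at this
  have e1 : ((n : ℕ) : ZMod n) * a = 0 := by rw [ZMod.natCast_self, zero_mul]
  rw [e1, AddChar.map_zero_eq_one] at this
  exact zero_ne_one this

theorem gauss_sum_zero {y : K} (hy : IsPrimitiveRoot y n)
    (ψ : DirichletCharacter K n) (hψ : ψ.IsPrimitive) (c : ℕ → K) (M : ℕ)
    (hsum : ∑ d ∈ range M, c d * ψ (d : ZMod n) = 0) :
    ∑ a : (ZMod n)ˣ, ψ⁻¹ a * A M c (ec hy a) = 0 := by
  have hprim : (ψ⁻¹).IsPrimitive := by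
    rw [DirichletCharacter.isPrimitive_def, DirichletCharacter.conductor_inv]
    exact hψ
  have h1 : ∑ a : (ZMod n)ˣ, ψ⁻¹ a * A M c (ec hy a) =
      ∑ a : ZMod n, ψ⁻¹ a * A M c (ec hy a) := by
    apply Fintype.sum_of_injective (fun u : (ZMod n)ˣ => (u : ZMod n)) Units.val_injective
    · intro a ha
      rw [MulChar.map_nonunit, zero_mul]
      intro hu
      exact ha ⟨hu.unit, rfl⟩
    · intro i; rfl
  rw [h1]
  have h2 : ∀ d : ℕ, ∑ a : ZMod n, ψ⁻¹ a * ec hy a ^ d =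
      ψ (d : ZMod n) * gaussSum ψ⁻¹ (ec hy) := by
    intro d
    have := gaussSum_mulShift_of_isPrimitive (e := ec hy) hprim (d : ZMod n)
    rw [inv_inv] at this
    rw [← this]
    unfold gaussSum
    apply Finset.sum_congr rfl
    intro a _
    rw [AddChar.mulShift_apply, ec_pow]
  unfold A
  simp_rw [Finset.mul_sum]
  rw [Finset.sum_comm]
  have h3 : ∀ d ∈ range M, ∑ a : ZMod n, ψ⁻¹ a * (c d * ec hy a ^ d) =
      c d * ψ (d : ZMod n) * gaussSum ψ⁻¹ (ec hy) := by
    intro d _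
    rw [mul_assoc, ← h2 d, Finset.mul_sum]
    apply Finset.sum_congr rfl
    intro a _
    ring
  rw [Finset.sum_congr rfl h3, ← Finset.sum_mul, hsum, zero_mul]

end gauss

end Pool.Agent.GP.NV2
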