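import Mathlib

/-!
# Linear independence of geometric sequences
-/

open Finset

namespace Pool.Agent.GP.NV2

open Classical in
theorem interp {K : Type*} [Field K] {ι : Type*} (T : Finset ι) (C W : ι → K)
    (h : ∀ m : ℕ, ∑ τ ∈ T, C τ * W τ ^ m = 0) (w : K) :
    ∑ τ ∈ T.filter (fun τ => W τ = w), C τ = 0 := by
  have h1 : ∀ Q : Polynomial K, ∑ τ ∈ T, C τ * Q.eval (W τ) = 0 := by
    intro Q
    have : ∀ τ, Q.eval (W τ) = ∑ m ∈ range (Q.natDegree + 1), Q.coeff m * W τ ^ m := fun τ =>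
      Polynomial.eval_eq_sum_range _
    simp_rw [this, Finset.mul_sum]
    rw [Finset.sum_comm]
    apply Finset.sum_eq_zero
    intro m _
    have h2 : ∑ τ ∈ T, C τ * (Q.coeff m * W τ ^ m) = Q.coeff m * ∑ τ ∈ T, C τ * W τ ^ m := by
      rw [Finset.mul_sum]
      apply Finset.sum_congr rfl
      intro τ _
      ring
    rw [h2, h m, mul_zero]
  let S : Finset K := (T.image W).erase w
  let Q : Polynomial K := ∏ x ∈ S, (Polynomial.X - Polynomial.C x)
  have hQw : Q.eval w ≠ 0 := by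
    simp only [Q, Polynomial.eval_prod, Polynomial.eval_sub, Polynomial.eval_X, Polynomial.eval_C]
    rw [Finset.prod_ne_zero_iff]
    intro x hx
    exact sub_ne_zero.2 (Finset.ne_of_mem_erase hx).symm
  have hQ0 : ∀ τ ∈ T, W τ ≠ w → Q.eval (W τ) = 0 := by
    intro τ hτ hne
    simp only [Q, Polynomial.eval_prod, Polynomial.eval_sub, Polynomial.eval_X, Polynomial.eval_C]
    apply Finset.prod_eq_zero (i := W τ)
    · exact Finset.mem_erase.2 ⟨hne, Finset.mem_image_of_mem _ hτ⟩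
    · exact sub_self _
  have h3 := h1 Q
  rw [← Finset.sum_filter_add_sum_filter_not T (fun τ => W τ = w)] at h3
  have h4 : ∑ τ ∈ T.filter (fun τ => ¬ W τ = w), C τ * Q.eval (W τ) = 0 := by
    apply Finset.sum_eq_zero
    intro τ hτ
    rw [Finset.mem_filter] at hτ
    rw [hQ0 τ hτ.1 hτ.2, mul_zero]
  rw [h4, add_zero] at h3
  have h5 : ∑ τ ∈ T.filter (fun τ => W τ = w), C τ * Q.eval (W τ) =
      (∑ τ ∈ T.filter (fun τ => W τ = w), C τ) * Q.eval w := by
    rw [Finset.sum_mul]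
    apply Finset.sum_congr rfl
    intro τ hτ
    rw [Finset.mem_filter] at hτ
    rw [hτ.2]
  rw [h5] at h3
  exact (mul_eq_zero.1 h3).resolve_right hQw

end Pool.Agent.GP.NV2
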