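import Pool.Agent.GP.NV2.Eval
import Pool.Agent.GP.NV2.Expand

/-!
# The equation for the classes modulo `n / E`
-/

open Finset

namespace Pool.Agent.GP.NV2

section star

variable {K : Type} [Field K] {n : ℕ} [NeZero n] {y : K} (hy : IsPrimitiveRoot y n)
  {E N2 : ℕ} [NeZero N2] (hn : n = E * N2) (hd : N2 ∣ n)
  {D : ℕ} {δ : K} {n' : ℕ} (hDn : Nat.Coprime D n)
  (hδ : (Odd n ∧ δ = -1 ∧ n' = n) ∨ (δ = 1 ∧ 2 * n' = n))
  {c : ℕ → K} (hper : ∀ d, c (d + D) = δ * c d)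

/-- the second additive character -/
noncomputable def ec2 : AddChar (ZMod N2) K :=
  ec (primitive_pow_E hy (Nat.pos_of_ne_zero (NeZero.ne n)) hn)

/-- the unit `1 + E m` -/
theorem exists_b (hEl : ∀ l : ℕ, l.Prime → l ∣ n → l ∣ E) (m : ℕ) :
    ∃ b : (ZMod n)ˣ, (b : ZMod n) = 1 + (E : ZMod n) * m := by
  have hcop : Nat.Coprime (1 + E * m) n := by
    rw [Nat.coprime_iff_gcd_eq_one]
    by_contra hg
    obtain ⟨l, hl, hlg⟩ := Nat.exists_prime_and_dvd hg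
    have h1 := (Nat.dvd_gcd_iff.1 hlg).1
    have h2 := hEl l hl (Nat.dvd_gcd_iff.1 hlg).2
    have h3 : l ∣ 1 := (Nat.dvd_add_iff_left (h2.mul_right m)).2 h1
    exact hl.one_lt.ne' (Nat.dvd_one.1 h3)
  refine ⟨ZMod.unitOfCoprime _ hcop, ?_⟩
  rw [ZMod.coe_unitOfCoprime]
  push_cast
  ring

theorem kappa_val (a : (ZMod n)ˣ) :
    ((ZMod.unitsMap hd a : (ZMod N2)ˣ) : ZMod N2) = ZMod.castHom hd (ZMod N2) (a : ZMod n) := by
  rw [ZMod.unitsMap_val, ZMod.castHom_apply]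

include hd hDn hδ in
theorem star_ne (h2 : (2 : K) ≠ 0) (hN2 : 1 < N2) (hE : δ ^ E = δ)
    (hEl : ∀ l : ℕ, l.Prime → l ∣ n → l ∣ E) (v : (ZMod N2)ˣ) (m : ℕ) :
    1 - (δ * ec2 hy hn v ^ D) * (ec2 hy hn v ^ (E * D)) ^ m ≠ 0 := by
  obtain ⟨a, rfl⟩ := ZMod.unitsMap_surjective hd v
  obtain ⟨b, hb⟩ := exists_b hEl m
  have h1 := denom_ne_L hy hDn hδ h2 hn hN2 hE (a * b)
  rw [Units.val_mul, hb, ec_shift_L hy hn hd, ← kappa_val hd] at h1
  rw [mul_assoc]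
  exact h1

open Classical in
include hDn hδ hper in
theorem star (h2 : (2 : K) ≠ 0) (hN2 : 1 < N2) (hE : δ ^ E = δ)
    (hEl : ∀ l : ℕ, l.Prime → l ∣ n → l ∣ E) (χ : (ZMod n)ˣ →* K) (G1 : Finset (ZMod n)ˣ)
    (Vp : Finset (ZMod N2)ˣ)
    (hall : ∀ b : (ZMod n)ˣ, ∑ a ∈ G1.filter (fun a => ZMod.unitsMap hd a ∈ Vp),
      χ a * R D δ c (ec hy ((a * b : (ZMod n)ˣ) : ZMod n)) = 0) (m : ℕ) :
    ∑ v ∈ Vp, (∑ d ∈ range (E * D), (c d * ∑ a ∈ G1.filter (fun a => ZMod.unitsMap hd a = v),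
        χ a * ec hy (a : ZMod n) ^ d) * (ec2 hy hn v ^ d) ^ m) /
      (1 - (δ * ec2 hy hn v ^ D) * (ec2 hy hn v ^ (E * D)) ^ m) = 0 := by
  obtain ⟨b, hb⟩ := exists_b hEl m
  rw [← hall b]
  rw [← Finset.sum_fiberwise_of_maps_to (t := Vp) (g := fun a => ZMod.unitsMap hd a)
    (fun a ha => (Finset.mem_filter.1 ha).2)]
  apply Finset.sum_congr rfl
  intro v hv
  have hfil : (G1.filter (fun a => ZMod.unitsMap hd a ∈ Vp)).filter
      (fun a => ZMod.unitsMap hd a = v) = G1.filter (fun a => ZMod.unitsMap hd a = v) := by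
    ext a
    simp only [Finset.mem_filter]
    constructor
    · rintro ⟨⟨h1, _⟩, h3⟩
      exact ⟨h1, h3⟩
    · rintro ⟨h1, h3⟩
      exact ⟨⟨h1, by rw [h3]; exact hv⟩, h3⟩
  rw [hfil, Finset.sum_div]
  have hterm : ∀ a ∈ G1.filter (fun a => ZMod.unitsMap hd a = v),
      χ a * R D δ c (ec hy ((a * b : (ZMod n)ˣ) : ZMod n)) =
      ∑ d ∈ range (E * D), (c d * (χ a * ec hy (a : ZMod n) ^ d)) * (ec2 hy hn v ^ d) ^ m /
        (1 - (δ * ec2 hy hn v ^ D) * (ec2 hy hn v ^ (E * D)) ^ m) := by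
    intro a ha
    have hav := (Finset.mem_filter.1 ha).2
    rw [R_eq hper (m := E) (denom_ne hy hDn hδ h2 (a * b)) hE
      (denom_ne_L hy hDn hδ h2 hn hN2 hE (a * b))]
    rw [Units.val_mul, hb, ec_shift_L hy hn hd, ← kappa_val hd, hav]
    have e1 : δ * (ec (primitive_pow_E hy (Nat.pos_of_ne_zero (NeZero.ne n)) hn) (v : ZMod N2) ^ D *
        (ec (primitive_pow_E hy (Nat.pos_of_ne_zero (NeZero.ne n)) hn) (v : ZMod N2) ^ (E * D)) ^ m) =
        (δ * ec2 hy hn v ^ D) * (ec2 hy hn v ^ (E * D)) ^ m := by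
      rw [mul_assoc]; rfl
    rw [e1, mul_div_assoc', ← Finset.sum_div]
    congr 1
    unfold A
    rw [Finset.mul_sum]
    apply Finset.sum_congr rfl
    intro d _
    rw [ec_shift hy hn hd, ← kappa_val hd, hav]
    unfold ec2
    ring
  rw [Finset.sum_congr rfl hterm, Finset.sum_comm]
  apply Finset.sum_congr rfl
  intro d _
  rw [← Finset.sum_div, ← Finset.sum_mul, ← Finset.mul_sum]

end star

end Pool.Agent.GP.NV2
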