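import Pool.Agent.GP.NV2.Units

/-!
# The subgroup `{a | χ a ^ ((l - 1) l ^ E) = 1}`
-/

open Finset

namespace Pool.Agent.GP.NV2

/-- the data of the torsion part -/
structure Tor (l j m0 mT : ℕ) (hm : m0 ≤ j) (t : (ZMod (l ^ j))ˣ) : Prop where
  neg : t ^ mT = -1
  pos : 0 < mT
  cover : ∀ a, ∃ i < 2 * mT, a * (t ^ i)⁻¹ ∈ H l j m0 hm
  inj : ∀ i, t ^ i ∈ H l j m0 hm → 2 * mT ∣ i

theorem Tor.two {l j m0 mT : ℕ} {hm : m0 ≤ j} {t : (ZMod (l ^ j))ˣ} (h : Tor l j m0 mT hm t) :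
    t ^ (2 * mT) = 1 := by
  rw [mul_comm, pow_mul, h.neg]
  simp

theorem exists_tor_two {j : ℕ} (hj : 2 ≤ j) : Tor 2 j 2 1 hj (-1) := by
  have hne : NeZero (2 ^ j) := ⟨by positivity⟩
  have hmap : ∀ x : (ZMod (2 ^ 2))ˣ, x = 1 ∨ x = -1 := by decide
  have hneg : (ZMod.unitsMap (pow_dvd_pow 2 hj)) (-1) = -1 := by
    apply Units.ext
    rw [ZMod.unitsMap_val, Units.val_neg, Units.val_one, Units.val_neg, Units.val_one]
    have : ((-1 : ZMod (2 ^ j)).cast : ZMod (2 ^ 2)) =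
      ZMod.castHom (pow_dvd_pow 2 hj) (ZMod (2 ^ 2)) (-1) := rfl
    rw [this, map_neg, map_one]
  refine ⟨by simp, by norm_num, ?_, ?_⟩
  · intro a
    rcases hmap (ZMod.unitsMap (pow_dvd_pow 2 hj) a) with h | h
    · refine ⟨0, by norm_num, ?_⟩
      rw [pow_zero, inv_one, mul_one]
      exact h
    · refine ⟨1, by norm_num, ?_⟩
      rw [pow_one]
      unfold H
      rw [MonoidHom.mem_ker, map_mul, map_inv, hneg, h]
      simp
  · intro i hi
    rw [mul_one]
    by_contra hodd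
    rw [← even_iff_two_dvd, Nat.not_even_iff_odd] at hodd
    rw [hodd.neg_one_pow] at hi
    unfold H at hi
    rw [MonoidHom.mem_ker, hneg] at hi
    revert hi
    decide

theorem cyclo_zero {S : Type*} [CommRing S] {t : S} {N : ℕ} (hN : 0 < N) (ht : t ^ N = 1)
    (hu : ∀ d ∈ N.properDivisors, IsUnit (t ^ d - 1)) :
    (Polynomial.cyclotomic N S).eval t = 0 := by
  have h1 := congrArg (Polynomial.eval t) (Polynomial.prod_cyclotomic_eq_X_pow_sub_one hN S)
  rw [Polynomial.eval_prod, ← Nat.insert_self_properDivisors hN.ne',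
    Finset.prod_insert Nat.self_notMem_properDivisors] at h1
  simp only [Polynomial.eval_sub, Polynomial.eval_pow, Polynomial.eval_X, Polynomial.eval_one,
    ht, sub_self] at h1
  have h2 : IsUnit (∏ d ∈ N.properDivisors, (Polynomial.cyclotomic d S).eval t) := by
    rw [IsUnit.prod_iff]
    intro d hd
    refine isUnit_of_dvd_unit ?_ (hu d hd)
    have h3 := Polynomial.eval_dvd (x := t) (Polynomial.cyclotomic.dvd_X_pow_sub_one d S)
    simpa using h3
  rw [mul_comm] at h1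
  exact (h2.mul_right_eq_zero).1 h1

theorem exists_tor_odd {l j : ℕ} (hl : l.Prime) (hl2 : l ≠ 2) (hj : 1 ≤ j) :
    ∃ t : (ZMod (l ^ j))ˣ, Tor l j 1 ((l - 1) / 2) hj t ∧
      (Polynomial.cyclotomic (l - 1) (ZMod (l ^ j))).eval (t : ZMod (l ^ j)) = 0 := by
  have hne : NeZero (l ^ j) := ⟨pow_ne_zero _ hl.ne_zero⟩
  have hlodd : Odd l := hl.odd_of_ne_two hl2
  have hl3 : 3 ≤ l := by
    have := hl.two_le
    omega
  obtain ⟨h', hh'⟩ := hlodd
  have hhalf : 2 * ((l - 1) / 2) = l - 1 := by omega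
  have hcyc := ZMod.isCyclic_units_of_prime_pow l hl hl2 j
  obtain ⟨g, hg⟩ := IsCyclic.exists_generator (α := (ZMod (l ^ j))ˣ)
  have hgp : ∀ x, x ∈ Submonoid.powers g := fun x => mem_powers_iff_mem_zpowers.2 (hg x)
  have hord : orderOf g = l ^ (j - 1) * (l - 1) := by
    rw [orderOf_eq_card_of_forall_mem_zpowers hg, Nat.card_eq_fintype_card,
      ZMod.card_units_eq_totient, Nat.totient_prime_pow hl (by omega)]
  set mT := (l - 1) / 2 with hmT
  set t := g ^ (l ^ (j - 1)) with ht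
  -- reduction modulo `l`
  have hred : ∀ x : (ZMod (l ^ 1))ˣ, x ^ (l - 1) = 1 := by
    intro x
    have := ZMod.pow_totient x
    rwa [Nat.totient_prime_pow hl (by norm_num), Nat.sub_self, pow_zero, one_mul] at this
  have hred2 : ∀ (x : (ZMod (l ^ 1))ˣ) (m : ℕ), x ^ (l ^ m) = x := by
    intro x m
    induction m with
    | zero => simp
    | succ m ih =>
      rw [pow_succ l m, pow_mul, ih]
      have h1 : x ^ (l - 1 + 1) = x := by rw [pow_succ x, hred, one_mul]
      rwa [Nat.sub_add_cancel hl.one_lt.le] at h1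
  have hinj : ∀ i, t ^ i ∈ H l j 1 hj → 2 * mT ∣ i := by
    intro i hi
    have h1 := pow_eq_one_of_mem hl le_rfl (fun h => absurd h hl2) hj hi
    rw [ht, ← pow_mul, ← pow_mul, ← orderOf_dvd_iff_pow_eq_one, hord] at h1
    rw [hhalf]
    have h2 : l - 1 ∣ l ^ (j - 1) * (i * l ^ (j - 1)) := (Dvd.intro_left _ rfl).trans h1
    have hc := coprime_pred_pow hl (j - 1)
    exact hc.dvd_of_dvd_mul_right (hc.dvd_of_dvd_mul_left h2)
  refine ⟨t, ⟨?_, by omega, ?_, hinj⟩, ?_⟩
  · -- `t ^ mT = -1`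
    obtain ⟨s, hs⟩ := hgp (-1)
    simp only at hs
    have e1 : orderOf g ∣ 2 * s := by
      rw [orderOf_dvd_iff_pow_eq_one, mul_comm, pow_mul, hs]
      simp
    have e2 : ¬ orderOf g ∣ s := by
      intro h
      rw [orderOf_dvd_iff_pow_eq_one, hs] at h
      have h3 := congrArg Units.val h
      rw [Units.val_neg, Units.val_one] at h3
      have h4 : ((2 : ℕ) : ZMod (l ^ j)) = 0 := by
        push_cast
        linear_combination -h3
      rw [ZMod.natCast_eq_zero_iff] at h4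
      have h5 := Nat.le_of_dvd (by norm_num) ((dvd_pow_self l (by omega)).trans h4)
      omega
    obtain ⟨c, hc⟩ := e1
    have hordmT : orderOf g = 2 * (l ^ (j - 1) * mT) := by
      rw [hord, ← hhalf]; ring
    have hcodd : Odd c := by
      by_contra hce
      rw [Nat.not_odd_iff_even] at hce
      obtain ⟨c', hc'⟩ := hce
      apply e2
      refine ⟨c', ?_⟩
      have : 2 * s = 2 * (orderOf g * c') := by rw [hc, hc']; ring
      omega
    obtain ⟨c', hc'⟩ := hcodd
    have hs2 : s = orderOf g * c' + l ^ (j - 1) * mT := by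
      apply Nat.eq_of_mul_eq_mul_left (show 0 < 2 by norm_num)
      rw [hc, hc', hordmT]
      ring
    rw [← hs, hs2, pow_add, pow_mul, pow_orderOf_eq_one, one_pow, one_mul, ht, ← pow_mul]
  · intro a
    obtain ⟨s, rfl⟩ := hgp a
    refine ⟨s % (l - 1), ?_, ?_⟩
    · rw [hhalf]; exact Nat.mod_lt _ (by omega)
    · unfold H
      rw [MonoidHom.mem_ker, map_mul, map_inv, mul_inv_eq_one]
      simp only [map_pow, ht]
      rw [hred2]
      conv_lhs => rw [← Nat.div_add_mod s (l - 1), pow_add, pow_mul, hred, one_pow, one_mul]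
  · have hrange : (t : ZMod (l ^ j)) ^ (l - 1) = 1 := by
      have h1 : t ^ (l - 1) = 1 := by
        rw [ht, ← pow_mul, ← hord, pow_orderOf_eq_one]
      have h2 := congrArg Units.val h1
      rwa [Units.val_pow_eq_pow_val, Units.val_one] at h2
    apply cyclo_zero (by omega) hrange
    intro d hd
    rw [Nat.mem_properDivisors] at hd
    have hd0 : 0 < d := Nat.pos_of_dvd_of_pos hd.1 (by omega)
    have hnot : t ^ d ∉ H l j 1 hj := by
      intro h
      have := hinj d h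
      rw [hhalf] at this
      have := Nat.le_of_dvd hd0 this
      omega
    rw [mem_H] at hnot
    push Not at hnot
    rw [← ZMod.natCast_zmod_val ((t : ZMod (l ^ j)) ^ d - 1), ZMod.isUnit_iff_coprime]
    apply Nat.Coprime.pow_right
    rw [Nat.coprime_comm, Nat.Prime.coprime_iff_not_dvd hl]
    rintro ⟨c, hc⟩
    apply hnot (c : ZMod (l ^ j))
    have h1 := ZMod.natCast_zmod_val ((t : ZMod (l ^ j)) ^ d - 1)
    rw [hc] at h1
    push_cast at h1
    rw [Units.val_pow_eq_pow_val]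
    linear_combination -h1

section sumG

variable {l j m0 mT : ℕ} {hm : m0 ≤ j} {t : (ZMod (l ^ j))ˣ}

theorem U_pow [NeZero (l ^ j)] {E : ℕ} (hE : 2 * E ≤ j) {U : (ZMod (l ^ j))ˣ}
    (hU : (U : ZMod (l ^ j)) = 1 + (l : ZMod (l ^ j)) ^ (j - E)) (c : ℕ) :
    ((U ^ c : (ZMod (l ^ j))ˣ) : ZMod (l ^ j)) = 1 + (l : ZMod (l ^ j)) ^ (j - E) * c := by
  have hlj : (l : ZMod (l ^ j)) ^ j = 0 := by rw [← Nat.cast_pow, ZMod.natCast_self]
  have h2 : (l : ZMod (l ^ j)) ^ (j - E) * (l : ZMod (l ^ j)) ^ (j - E) = 0 := by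
    rw [← pow_add, show j - E + (j - E) = j + (j - 2 * E) by omega, pow_add, hlj, zero_mul]
  induction c with
  | zero => simp
  | succ c ih =>
    rw [pow_succ, Units.val_mul, ih, hU]
    push_cast
    linear_combination c * h2

theorem U_inj [NeZero (l ^ j)] (hl : l.Prime) {E : ℕ} (hE : 2 * E ≤ j) {U : (ZMod (l ^ j))ˣ}
    (hU : (U : ZMod (l ^ j)) = 1 + (l : ZMod (l ^ j)) ^ (j - E)) {c c' : ℕ} (hc : c < l ^ E)
    (hc' : c' < l ^ E) (h : U ^ c = U ^ c') : c = c' := by
  have h1 := congrArg Units.val h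
  rw [U_pow hE hU, U_pow hE hU] at h1
  have h2 : ((l ^ (j - E) * c : ℕ) : ZMod (l ^ j)) = ((l ^ (j - E) * c' : ℕ) : ZMod (l ^ j)) := by
    push_cast
    linear_combination h1
  rw [ZMod.natCast_eq_natCast_iff] at h2
  have h3 : l ^ j = l ^ (j - E) * l ^ E := by rw [← pow_add]; congr 1; omega
  rw [h3] at h2
  have h4 := Nat.ModEq.mul_left_cancel' (pow_ne_zero _ hl.ne_zero) h2
  rwa [Nat.ModEq, Nat.mod_eq_of_lt hc, Nat.mod_eq_of_lt hc'] at h4

theorem sum_G1 [NeZero (l ^ j)] (hl : l.Prime) (hm1 : 1 ≤ m0) (hm2 : l = 2 → 2 ≤ m0)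
    (ht : Tor l j m0 mT hm t) {E : ℕ} (hE : 2 * E ≤ j) (hEm : m0 ≤ j - E) (hj : 2 ≤ j)
    (hdvd : 2 * mT ∣ (l - 1) * l ^ E)
    {K : Type*} [Field K] (χ : (ZMod (l ^ j))ˣ →* K)
    (hprim : ∃ u ∈ H l j (j - 1) (Nat.sub_le _ _), χ u ≠ 1) {U : (ZMod (l ^ j))ˣ}
    (hU : (U : ZMod (l ^ j)) = 1 + (l : ZMod (l ^ j)) ^ (j - E)) (F : (ZMod (l ^ j))ˣ → K) :
    (∑ a : (ZMod (l ^ j))ˣ, open Classical in
      if χ a ^ ((l - 1) * l ^ E) = 1 then F a else 0) =
    ∑ i ∈ range (2 * mT), ∑ c ∈ range (l ^ E), F (t ^ i * U ^ c) := by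
  classical
  have hUH : U ∈ H l j (j - E) (Nat.sub_le _ _) := by
    rw [mem_H]; exact ⟨1, by rw [hU, mul_one]⟩
  have hUl : U ^ (l ^ E) = 1 := by
    apply Units.ext
    rw [U_pow hE hU, Units.val_one]
    push_cast
    rw [← pow_add, show j - E + E = j by omega, ← Nat.cast_pow, ZMod.natCast_self, add_zero]
  have htw : ∀ i, (t ^ i) ^ ((l - 1) * l ^ E) = 1 := by
    intro i
    obtain ⟨b, hb⟩ := hdvd
    rw [hb, ← pow_mul, mul_comm i, mul_assoc, pow_mul, ht.two, one_pow]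
  rw [← Finset.sum_filter]
  rw [← Finset.sum_product' (range (2 * mT)) (range (l ^ E)) (fun i c => F (t ^ i * U ^ c))]
  symm
  apply Finset.sum_bij (fun (q : ℕ × ℕ) _ => t ^ q.1 * U ^ q.2)
  · rintro ⟨i, c⟩ _
    rw [Finset.mem_filter]
    refine ⟨Finset.mem_univ _, ?_⟩
    rw [← map_pow]
    have : (t ^ i * U ^ c) ^ ((l - 1) * l ^ E) = 1 := by
      rw [mul_pow, htw, one_mul, ← pow_mul]
      have e1 : c * ((l - 1) * l ^ E) = l ^ E * (c * (l - 1)) := by ring
      rw [e1, pow_mul, hUl, one_pow]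
    rw [this, map_one]
  · rintro ⟨i, c⟩ h1 ⟨i', c'⟩ h2 h
    rw [Finset.mem_product, Finset.mem_range, Finset.mem_range] at h1 h2
    simp only at h1 h2 h
    -- wlog by symmetric argument
    have key : ∀ i c i' c' : ℕ, i ≤ i' → i' < 2 * mT → t ^ i * U ^ c = t ^ i' * U ^ c' → i = i' := by
      intro i c i' c' hii hi' h
      have h3 : t ^ (i' - i) * (U ^ c') = U ^ c := by
        have : t ^ i' = t ^ i * t ^ (i' - i) := by rw [← pow_add]; congr 1; omega
        rw [this, mul_assoc] at h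
        exact (mul_left_cancel h).symm
      have h4 : t ^ (i' - i) ∈ H l j m0 hm := by
        have : t ^ (i' - i) = U ^ c * (U ^ c')⁻¹ := by rw [← h3]; group
        rw [this]
        exact H_mono hm _ hEm (mul_mem (pow_mem hUH _) (inv_mem (pow_mem hUH _)))
      have h5 := ht.inj _ h4
      rcases Nat.eq_zero_or_pos (i' - i) with h0 | h0
      · omega
      · have := Nat.le_of_dvd h0 h5
        omega
    have hii : i = i' := by
      rcases le_total i i' with hle | hle
      · exact key i c i' c' hle h2.1 h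
      · exact (key i' c' i c hle h1.1 h.symm).symm
    subst hii
    have := U_inj hl hE hU h1.2 h2.2 (mul_left_cancel h)
    rw [this]
  · intro a ha
    rw [Finset.mem_filter] at ha
    obtain ⟨i, hi, hx⟩ := ht.cover a
    set x := a * (t ^ i)⁻¹ with hxdef
    have hax : a = t ^ i * x := by rw [hxdef]; rw [mul_comm a, mul_inv_cancel_left]
    have h1 : x ^ ((l - 1) * l ^ E) = 1 := by
      apply faithful hl hm1 hm2 hm hj χ hprim (pow_mem hx _)
      have h2 := ha.2
      rw [← map_pow, hax, mul_pow, htw, one_mul] at h2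
      exact h2
    have h2 : x ^ (l ^ (j - m0)) = 1 := pow_eq_one_of_mem hl hm1 hm2 hm hx
    have h3 : x ^ (l ^ E) = 1 := by
      have d1 := orderOf_dvd_of_pow_eq_one h1
      have d2 := orderOf_dvd_of_pow_eq_one h2
      rw [← orderOf_dvd_iff_pow_eq_one]
      have hc : Nat.Coprime (orderOf x) (l - 1) :=
        (Nat.Coprime.of_dvd_right d2 (coprime_pred_pow hl (j - m0))).symm
      exact hc.dvd_of_dvd_mul_left d1
    have h4 := mem_of_pow_eq_one hl hm1 hm2 hm hx h3
    rw [mem_H] at h4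
    obtain ⟨c, hc⟩ := h4
    refine ⟨(i, c.val % l ^ E), ?_, ?_⟩
    · rw [Finset.mem_product, Finset.mem_range, Finset.mem_range]
      exact ⟨hi, Nat.mod_lt _ (pow_pos hl.pos _)⟩
    · simp only
      rw [hax]
      congr 1
      apply Units.ext
      rw [U_pow hE hU, hc]
      congr 1
      have h5 : ((l ^ (j - E) * (c.val % l ^ E) : ℕ) : ZMod (l ^ j)) =
          ((l ^ (j - E) * c.val : ℕ) : ZMod (l ^ j)) := by
        rw [ZMod.natCast_eq_natCast_iff]
        have h6 : l ^ j = l ^ (j - E) * l ^ E := by rw [← pow_add]; congr 1; omega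
        have h7 : l ^ (j - E) * (c.val % l ^ E) ≡ l ^ (j - E) * c.val
          [MOD l ^ (j - E) * l ^ E] := (Nat.mod_modEq _ _).mul_left' _
        rwa [← h6] at h7
      push_cast at h5
      rw [ZMod.natCast_zmod_val] at h5
      exact h5
  · intro q _
    rfl

end sumG

end Pool.Agent.GP.NV2
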