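import Mathlib

/-!
# Averaging over Frobenius conjugates
-/

open Finset

namespace Pool.Agent.GP.NV2

theorem sum_shift {M : Type*} [AddCommGroup M] (F : ℕ → M) (f : ℕ)
    (hF : ∀ s, F (s + f) = F s) (t : ℕ) :
    ∑ s ∈ range f, F (s + t) = ∑ s ∈ range f, F s := by
  induction t with
  | zero => simp
  | succ t ih =>
    rw [← ih]
    have h1 := Finset.sum_range_succ' (fun s => F (s + t)) f
    have h2 := Finset.sum_range_succ (fun s => F (s + t)) f
    rw [h1] at h2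
    simp only [zero_add] at h2
    have h3 : F (f + t) = F t := by rw [add_comm, hF]
    rw [h3] at h2
    have h4 := add_right_cancel h2
    rw [← h4]
    apply Finset.sum_congr rfl
    intro s _
    congr 1
    ring

/-- `q ^ t ≡ 1 (mod l ^ (n + E))` iff `l ^ n ∣ t`, for `l ^ E` exactly dividing `q - 1`. -/
theorem pow_sub_one_dvd {l E q : ℕ} (hl : l.Prime) (hE : 1 ≤ E) (hE2 : l = 2 → 2 ≤ E)
    (hq : 1 ≤ q) (h1 : l ^ E ∣ q - 1) (h2 : ¬ l ^ (E + 1) ∣ q - 1) (n t : ℕ) :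
    l ^ (n + E) ∣ q ^ t - 1 ↔ l ^ n ∣ t := by
  obtain ⟨a, ha⟩ := h1
  have hqa : q = 1 + l ^ E * a := by omega
  have hla : ¬ l ∣ a := by
    rintro ⟨b, rfl⟩
    exact h2 ⟨b, by rw [ha]; ring⟩
  have hpm : E + 2 ≤ l * E := by
    rcases Nat.lt_or_ge l 3 with h | h
    · have : l = 2 := by have := hl.two_le; omega
      have := hE2 this
      subst l
      omega
    · nlinarith
  have hord := ZMod.orderOf_one_add_mul_prime_pow hl E (by omega) hpm (a : ℤ)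
    (by exact_mod_cast hla) n
  have hq1 : 1 ≤ q ^ t := Nat.one_le_pow _ _ hq
  rw [← hord, orderOf_dvd_iff_pow_eq_one]
  have e1 : ((1 : ZMod (l ^ (n + E))) + (l : ZMod (l ^ (n + E))) ^ E * ((a : ℤ) : ZMod (l ^ (n + E)))) ^ t =
      ((q ^ t : ℕ) : ZMod (l ^ (n + E))) := by
    rw [hqa]; push_cast; ring
  rw [e1]
  have e2 : ((q ^ t : ℕ) : ZMod (l ^ (n + E))) = 1 ↔
      ((q ^ t : ℕ) : ZMod (l ^ (n + E))) = ((1 : ℕ) : ZMod (l ^ (n + E))) := by
    rw [Nat.cast_one]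
  rw [e2, ZMod.natCast_eq_natCast_iff]
  constructor
  · intro h
    exact ((Nat.modEq_iff_dvd' hq1).2 h).symm
  · intro h
    exact (Nat.modEq_iff_dvd' hq1).1 h.symm

theorem coprime_pred_pow {l : ℕ} (hl : l.Prime) (m : ℕ) : Nat.Coprime (l - 1) (l ^ m) := by
  apply Nat.Coprime.pow_right
  rw [Nat.coprime_comm, Nat.Prime.coprime_iff_not_dvd hl]
  intro h
  have := hl.two_le
  have := Nat.le_of_dvd (by omega) h
  omega

theorem trace_zero {k : Type*} [Field k] {l E J q : ℕ} (hl : l.Prime) (hE : 1 ≤ E)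
    (hE2 : l = 2 → 2 ≤ E) (hq : 1 < q) (h1 : (l - 1) * l ^ E ∣ q - 1)
    (h2 : ¬ l ^ (E + 1) ∣ q - 1) (z : k)
    (hz : z ^ ((l - 1) * l ^ J) = 1) (hz' : z ^ ((l - 1) * l ^ E) ≠ 1) :
    ∑ s ∈ range (l ^ (J - E)), z ^ (q ^ s) = 0 := by
  classical
  have hex : ∃ u, z ^ ((l - 1) * l ^ u) = 1 := ⟨J, hz⟩
  set u := Nat.find hex with hu
  have hu1 : z ^ ((l - 1) * l ^ u) = 1 := Nat.find_spec hex
  have huJ : u ≤ J := Nat.find_min' hex hz
  have huE : E < u := by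
    by_contra hcon
    push Not at hcon
    apply hz'
    have : l ^ E = l ^ u * l ^ (E - u) := by rw [← pow_add]; congr 1; omega
    rw [this, ← mul_assoc, pow_mul, hu1, one_pow]
  have hmin : z ^ ((l - 1) * l ^ (u - 1)) ≠ 1 := Nat.find_min hex (by omega)
  have hlE : l ^ E ∣ q - 1 := (Dvd.intro_left _ rfl).trans h1
  have hl1 : l - 1 ∣ q - 1 := (Dvd.intro _ rfl).trans h1
  have hqt : ∀ t, q - 1 ∣ q ^ t - 1 := fun t => by
    simpa using Nat.sub_dvd_pow_sub_pow q 1 t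
  have hqt1 : ∀ t, 1 ≤ q ^ t := fun t => Nat.one_le_pow _ _ (by omega)
  have hl1t : ∀ t, l - 1 ∣ q ^ t - 1 := fun t => hl1.trans (hqt t)
  set t := l ^ (u - 1 - E) with ht
  have F1 : l ^ (u - 1) ∣ q ^ t - 1 := by
    have := (pow_sub_one_dvd hl hE hE2 (by omega) hlE h2 (u - 1 - E) t).2 dvd_rfl
    rwa [show u - 1 - E + E = u - 1 by omega] at this
  have F2 : ¬ l ^ u ∣ q ^ t - 1 := by
    intro h
    have := (pow_sub_one_dvd hl hE hE2 (by omega) hlE h2 (u - E) t).1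
      (by rwa [show u - E + E = u by omega])
    rw [ht, Nat.pow_dvd_pow_iff_le_right hl.one_lt] at this
    omega
  obtain ⟨m', hm'⟩ := Nat.Coprime.mul_dvd_of_dvd_of_dvd (coprime_pred_pow hl (u - 1)) (hl1t t) F1
  have hlm' : ¬ l ∣ m' := by
    rintro ⟨b, rfl⟩
    apply F2
    refine ⟨(l - 1) * b, ?_⟩
    rw [hm']
    have : l ^ u = l ^ (u - 1) * l := by rw [← pow_succ]; congr 1; omega
    rw [this]; ring
  set ω := z ^ (q ^ t - 1) with hω
  have hω1 : ω ≠ 1 := by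
    intro h
    apply hmin
    have d1 : orderOf z ∣ q ^ t - 1 := orderOf_dvd_of_pow_eq_one h
    have d2 : orderOf z ∣ (l - 1) * l ^ u := orderOf_dvd_of_pow_eq_one hu1
    have d3 := Nat.dvd_gcd d1 d2
    have e1 : (l - 1) * l ^ u = (l - 1) * l ^ (u - 1) * l := by
      rw [mul_assoc, ← pow_succ]; congr 2; omega
    rw [hm', e1, Nat.gcd_mul_left] at d3
    have e2 : Nat.gcd m' l = 1 := by
      rw [Nat.gcd_comm]; exact (Nat.Prime.coprime_iff_not_dvd hl).2 hlm'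
    rw [e2, mul_one] at d3
    exact orderOf_dvd_iff_pow_eq_one.1 d3
  have hωl : ω ^ l = 1 := by
    rw [hω, ← pow_mul, hm']
    have e1 : (l - 1) * l ^ (u - 1) * m' * l = (l - 1) * l ^ u * m' := by
      have : l ^ u = l ^ (u - 1) * l := by rw [← pow_succ]; congr 1; omega
      rw [this]; ring
    rw [e1, pow_mul, hu1, one_pow]
  have hωq : ∀ s, ω ^ (q ^ s) = ω := by
    intro s
    have hlq : l ∣ q ^ s - 1 := ((dvd_pow_self l (by omega)).trans hlE).trans (hqt s)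
    obtain ⟨b, hb⟩ := hlq
    have : q ^ s = 1 + l * b := by have := hqt1 s; omega
    rw [this, pow_add, pow_mul, hωl, one_pow, pow_one, mul_one]
  have hz0 : z ^ (q ^ (l ^ (J - E))) = z := by
    have hJ : l ^ J ∣ q ^ (l ^ (J - E)) - 1 := by
      have := (pow_sub_one_dvd hl hE hE2 (by omega) hlE h2 (J - E) (l ^ (J - E))).2 dvd_rfl
      rwa [show J - E + E = J by omega] at this
    obtain ⟨b, hb⟩ := Nat.Coprime.mul_dvd_of_dvd_of_dvd (coprime_pred_pow hl J)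
      (hl1t (l ^ (J - E))) hJ
    have : q ^ (l ^ (J - E)) = 1 + (l - 1) * l ^ J * b := by
      have := hqt1 (l ^ (J - E)); omega
    rw [this, pow_add, pow_mul, hz, one_pow, pow_one, mul_one]
  have hshift := sum_shift (fun s => z ^ (q ^ s)) (l ^ (J - E)) (by
    intro s
    rw [pow_add, mul_comm, pow_mul, hz0]) t
  have h3 : ∀ s, z ^ (q ^ (s + t)) = z ^ (q ^ s) * ω := by
    intro s
    have e1 : z ^ (q ^ t) = z * ω := by
      rw [hω, ← pow_succ']
      congr 1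
      have := hqt1 t; omega
    rw [pow_add, mul_comm, pow_mul, e1, mul_pow, hωq]
  simp only [h3] at hshift
  rw [← Finset.sum_mul] at hshift
  have h4 : (∑ s ∈ range (l ^ (J - E)), z ^ (q ^ s)) * (ω - 1) = 0 := by
    rw [mul_sub, hshift]; ring
  exact (mul_eq_zero.1 h4).resolve_right (sub_ne_zero.2 hω1)

section avg

variable {k : Type*} [Field k] {p : ℕ} [Fact p.Prime] [CharP k p] {G : Type*} [CommGroup G]
  [Fintype G] {r : ℕ} (χ : G →* k) (f : G → k) (σ : G)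

theorem conj_sum (hf : ∀ a, f a ^ (p ^ r) = f (σ * a)) (h0 : ∑ a, χ a * f a = 0) (s : ℕ) :
    ∑ a, χ a ^ ((p ^ r) ^ s) * f a = 0 := by
  induction s with
  | zero => simpa using h0
  | succ s ih =>
    have h1 : (∑ a, χ a ^ ((p ^ r) ^ s) * f a) ^ (p ^ r) = 0 ^ (p ^ r) := by rw [ih]
    rw [sum_pow_char_pow, zero_pow (pow_pos (Fact.out : p.Prime).pos r).ne'] at h1
    have h2 : ∑ a, (χ a ^ ((p ^ r) ^ s) * f a) ^ (p ^ r) =
        χ σ⁻¹ ^ ((p ^ r) ^ (s + 1)) * ∑ a, χ a ^ ((p ^ r) ^ (s + 1)) * f a := by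
      rw [Finset.mul_sum, ← Equiv.sum_comp (Equiv.mulLeft σ)
        (fun a => χ σ⁻¹ ^ ((p ^ r) ^ (s + 1)) * (χ a ^ ((p ^ r) ^ (s + 1)) * f a))]
      apply Finset.sum_congr rfl
      intro a _
      simp only [Equiv.coe_mulLeft]
      rw [mul_pow, hf, ← pow_mul, ← pow_succ, ← mul_assoc, ← mul_pow, ← map_mul,
        inv_mul_cancel_left]
    rw [h2] at h1
    have h3 : χ σ⁻¹ ≠ 0 := by
      intro h
      have : χ σ * χ σ⁻¹ = 1 := by rw [← map_mul, mul_inv_cancel, map_one]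
      rw [h, mul_zero] at this
      exact zero_ne_one this
    exact (mul_eq_zero.1 h1).resolve_left (pow_ne_zero _ h3)

theorem avg {l E J : ℕ} (hl : l.Prime) (hE : 1 ≤ E)
    (hE2 : l = 2 → 2 ≤ E) (hq : 1 < p ^ r) (h1 : (l - 1) * l ^ E ∣ p ^ r - 1)
    (h2 : ¬ l ^ (E + 1) ∣ p ^ r - 1) (hlk : (l : k) ≠ 0)
    (hχ : ∀ a, χ a ^ ((l - 1) * l ^ J) = 1)
    (hf : ∀ a, f a ^ (p ^ r) = f (σ * a)) (h0 : ∑ a, χ a * f a = 0) (b : G) :
    (∑ a : G, open Classical in if χ a ^ ((l - 1) * l ^ E) = 1 then χ a * f (a * b) else 0) = 0 := by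
  classical
  have h3 : ∑ s ∈ range (l ^ (J - E)), χ b⁻¹ ^ ((p ^ r) ^ s) *
      ∑ a, χ a ^ ((p ^ r) ^ s) * f a = 0 := by
    apply Finset.sum_eq_zero
    intro s _
    rw [conj_sum χ f σ hf h0 s, mul_zero]
  have h4 : ∑ s ∈ range (l ^ (J - E)), χ b⁻¹ ^ ((p ^ r) ^ s) *
      ∑ a, χ a ^ ((p ^ r) ^ s) * f a =
      ∑ a : G, f (a * b) * ∑ s ∈ range (l ^ (J - E)), χ a ^ ((p ^ r) ^ s) := by
    simp only [Finset.mul_sum]
    rw [Finset.sum_comm, ← Equiv.sum_comp (Equiv.mulRight b)]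
    apply Finset.sum_congr rfl
    intro a _
    apply Finset.sum_congr rfl
    intro s _
    simp only [Equiv.coe_mulRight]
    have : χ a ^ ((p ^ r) ^ s) = χ b⁻¹ ^ ((p ^ r) ^ s) * χ (a * b) ^ ((p ^ r) ^ s) := by
      rw [← mul_pow, ← map_mul]
      congr 2
      rw [mul_comm a b, inv_mul_cancel_left]
    rw [this]; ring
  rw [h4] at h3
  have h5 : ∀ a : G, f (a * b) * ∑ s ∈ range (l ^ (J - E)), χ a ^ ((p ^ r) ^ s) =
      ((l ^ (J - E) : ℕ) : k) *
        (if χ a ^ ((l - 1) * l ^ E) = 1 then χ a * f (a * b) else 0) := by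
    intro a
    split_ifs with h
    · have h6 : ∀ s, χ a ^ ((p ^ r) ^ s) = χ a := by
        intro s
        obtain ⟨c, hc⟩ : (l - 1) * l ^ E ∣ (p ^ r) ^ s - 1 :=
          h1.trans (by simpa using Nat.sub_dvd_pow_sub_pow (p ^ r) 1 s)
        have h7 : 1 ≤ (p ^ r) ^ s := Nat.one_le_pow _ _ (by omega)
        have : (p ^ r) ^ s = 1 + (l - 1) * l ^ E * c := by omega
        rw [this, pow_add, pow_mul, h, one_pow, pow_one, mul_one]
      simp only [h6]
      rw [Finset.sum_const, Finset.card_range, nsmul_eq_mul]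
      ring
    · rw [trace_zero hl hE hE2 hq h1 h2 (χ a) (hχ a) h]
      ring
  simp only [h5] at h3
  rw [← Finset.mul_sum] at h3
  have h6 : ((l ^ (J - E) : ℕ) : k) ≠ 0 := by
    push_cast
    exact pow_ne_zero _ hlk
  exact (mul_eq_zero.1 h3).resolve_left h6

end avg

end Pool.Agent.GP.NV2
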