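import Pool.Agent.GP.NV2.Trace

/-!
# Units modulo `l ^ j`
-/

open Finset

namespace Pool.Agent.GP.NV2

section units

variable {l j : ℕ}

/-- units congruent to `1` modulo `l ^ m` -/
def H (l j m : ℕ) (hm : m ≤ j) : Subgroup (ZMod (l ^ j))ˣ :=
  (ZMod.unitsMap (pow_dvd_pow l hm)).ker

theorem mem_H [NeZero (l ^ j)] {m : ℕ} (hm : m ≤ j) (x : (ZMod (l ^ j))ˣ) :
    x ∈ H l j m hm ↔ ∃ c : ZMod (l ^ j), (x : ZMod (l ^ j)) = 1 + (l : ZMod (l ^ j)) ^ m * c := by
  unfold H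
  rw [MonoidHom.mem_ker]
  have hd := pow_dvd_pow l hm
  have h1 : ZMod.unitsMap hd x = 1 ↔ (ZMod.castHom hd (ZMod (l ^ m))) (x : ZMod (l ^ j)) = 1 := by
    rw [← Units.val_inj, ZMod.unitsMap_val, Units.val_one, ZMod.castHom_apply]
  rw [h1]
  constructor
  · intro h
    have h2 : (ZMod.castHom hd (ZMod (l ^ m))) ((x : ZMod (l ^ j)) - 1) = 0 := by
      rw [map_sub, h, map_one, sub_self]
    have h3 : ((x : ZMod (l ^ j)) - 1) = ((((x : ZMod (l ^ j)) - 1).val : ℕ) : ZMod (l ^ j)) := by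
      rw [ZMod.natCast_zmod_val]
    rw [h3, map_natCast, ZMod.natCast_eq_zero_iff] at h2
    obtain ⟨c, hc⟩ := h2
    refine ⟨(c : ZMod (l ^ j)), ?_⟩
    rw [hc] at h3
    push_cast at h3
    linear_combination h3
  · rintro ⟨c, hc⟩
    rw [hc, map_add, map_one, map_mul, map_pow, map_natCast]
    have : ((l : ℕ) : ZMod (l ^ m)) ^ m = 0 := by
      rw [← Nat.cast_pow, ZMod.natCast_self]
    rw [this, zero_mul, add_zero]

theorem H_mono {m m' : ℕ} (hm : m ≤ j) (hm' : m' ≤ j) (h : m ≤ m') [NeZero (l ^ j)]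
    {x : (ZMod (l ^ j))ˣ} (hx : x ∈ H l j m' hm') : x ∈ H l j m hm := by
  rw [mem_H] at hx ⊢
  obtain ⟨c, hc⟩ := hx
  refine ⟨(l : ZMod (l ^ j)) ^ (m' - m) * c, ?_⟩
  rw [hc, ← mul_assoc, ← pow_add]
  congr 3
  omega

/-- the exact order of a nontrivial element -/
theorem exact_order (hl : l.Prime) {m : ℕ} (hm1 : 1 ≤ m) (hm2 : l = 2 → 2 ≤ m) (hm : m ≤ j)
    [NeZero (l ^ j)] {x : (ZMod (l ^ j))ˣ} (hx : x ∈ H l j m hm) (hx1 : x ≠ 1) :
    ∃ m', m ≤ m' ∧ ∃ hj : m' < j, x ∈ H l j m' hj.le ∧ orderOf x = l ^ (j - m') := by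
  rw [mem_H] at hx
  obtain ⟨c, hc⟩ := hx
  set v := ((x : ZMod (l ^ j)) - 1).val with hv
  have hvx : (x : ZMod (l ^ j)) = 1 + (v : ZMod (l ^ j)) := by
    rw [hv, ZMod.natCast_zmod_val]; ring
  have hv0 : v ≠ 0 := by
    intro h
    apply hx1
    rw [h] at hvx
    apply Units.ext
    rw [hvx]; simp
  have hvlt : v < l ^ j := ZMod.val_lt _
  obtain ⟨m', a, hla, hva⟩ := Nat.exists_eq_pow_mul_and_not_dvd hv0 l hl.ne_one
  have hapos : 0 < a := by
    rcases Nat.eq_zero_or_pos a with h | h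
    · rw [h] at hla; exact absurd (dvd_zero l) hla
    · exact h
  have hmj : m' < j := by
    by_contra hcon
    push Not at hcon
    have : l ^ j ≤ l ^ m' := Nat.pow_le_pow_right hl.pos hcon
    nlinarith
  have hmm : m ≤ m' := by
    have h1 : ((l ^ m : ℕ) : ZMod (l ^ j)) * c = (v : ZMod (l ^ j)) := by
      push_cast
      rw [hvx] at hc
      linear_combination -hc
    have hd := pow_dvd_pow l hm
    have h2 := congrArg (ZMod.castHom hd (ZMod (l ^ m))) h1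
    rw [map_mul, map_natCast, map_natCast, ZMod.natCast_self, zero_mul, eq_comm,
      ZMod.natCast_eq_zero_iff, hva] at h2
    by_contra hcon
    push Not at hcon
    have h3 : l ^ (m' + 1) ∣ l ^ m' * a := (pow_dvd_pow l hcon).trans h2
    rw [pow_succ, Nat.mul_dvd_mul_iff_left (pow_pos hl.pos _)] at h3
    exact hla h3
  refine ⟨m', hmm, hmj, ?_, ?_⟩
  · rw [mem_H]
    refine ⟨(a : ZMod (l ^ j)), ?_⟩
    rw [hvx, hva]
    push_cast
    ring
  · have hpm : m' + 2 ≤ l * m' := by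
      rcases Nat.lt_or_ge l 3 with h | h
      · have : l = 2 := by have := hl.two_le; omega
        have := hm2 this
        subst l
        omega
      · nlinarith
    have hord := ZMod.orderOf_one_add_mul_prime_pow hl m' (by omega) hpm (a : ℤ)
      (by exact_mod_cast hla) (j - m')
    have key : ∀ j' (_ : j' = j) (x : ZMod (l ^ j')),
        x = 1 + (l : ZMod (l ^ j')) ^ m' * ((a : ℤ) : ZMod (l ^ j')) → orderOf x = l ^ (j - m') →
        orderOf ((1 : ZMod (l ^ j)) + (l : ZMod (l ^ j)) ^ m' * ((a : ℤ) : ZMod (l ^ j))) =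
          l ^ (j - m') := by
      rintro j' rfl x hx h
      rw [← hx]; exact h
    have h4 := key (j - m' + m') (by omega) _ rfl hord
    rw [← orderOf_units, hvx, hva]
    rw [← h4]
    congr 1
    push_cast
    ring

/-- Fact P. -/
theorem mem_of_pow_eq_one (hl : l.Prime) {m E : ℕ} (hm1 : 1 ≤ m) (hm2 : l = 2 → 2 ≤ m)
    (hm : m ≤ j) [NeZero (l ^ j)] {x : (ZMod (l ^ j))ˣ} (hx : x ∈ H l j m hm)
    (hE : x ^ (l ^ E) = 1) : x ∈ H l j (j - E) (Nat.sub_le _ _) := by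
  by_cases hx1 : x = 1
  · rw [hx1]; exact one_mem _
  · obtain ⟨m', hmm, hmj, hxm, hord⟩ := exact_order hl hm1 hm2 hm hx hx1
    have h1 := orderOf_dvd_of_pow_eq_one hE
    rw [hord, Nat.pow_dvd_pow_iff_le_right hl.one_lt] at h1
    exact H_mono _ hmj.le (by omega) hxm

theorem pow_eq_one_of_mem (hl : l.Prime) {m : ℕ} (hm1 : 1 ≤ m) (hm2 : l = 2 → 2 ≤ m)
    (hm : m ≤ j) [NeZero (l ^ j)] {x : (ZMod (l ^ j))ˣ} (hx : x ∈ H l j m hm) :
    x ^ (l ^ (j - m)) = 1 := by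
  by_cases hx1 : x = 1
  · rw [hx1, one_pow]
  · obtain ⟨m', hmm, hmj, hxm, hord⟩ := exact_order hl hm1 hm2 hm hx hx1
    rw [← orderOf_dvd_iff_pow_eq_one, hord]
    exact pow_dvd_pow l (by omega)

/-- Fact Q: a character nontrivial on `1 + l^(j-1)` is faithful on the `1`-units. -/
theorem faithful (hl : l.Prime) {m : ℕ} (hm1 : 1 ≤ m) (hm2 : l = 2 → 2 ≤ m) (hm : m ≤ j)
    (hj : 2 ≤ j) [NeZero (l ^ j)] {k : Type*} [CommMonoid k] (χ : (ZMod (l ^ j))ˣ →* k)
    (hprim : ∃ u ∈ H l j (j - 1) (Nat.sub_le _ _), χ u ≠ 1)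
    {x : (ZMod (l ^ j))ˣ} (hx : x ∈ H l j m hm) (hχ : χ x = 1) : x = 1 := by
  by_contra hx1
  obtain ⟨m', hmm, hmj, hxm, hord⟩ := exact_order hl hm1 hm2 hm hx hx1
  obtain ⟨u, hu, hχu⟩ := hprim
  apply hχu
  set X := x ^ (l ^ (j - 1 - m')) with hX
  have hXl : X ^ (l ^ 1) = 1 := by
    rw [hX, ← pow_mul, ← pow_add, ← orderOf_dvd_iff_pow_eq_one, hord]
    exact pow_dvd_pow l (by omega)
  have hX1 : X ≠ 1 := by
    intro h
    rw [hX, ← orderOf_dvd_iff_pow_eq_one, hord, Nat.pow_dvd_pow_iff_le_right hl.one_lt] at h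
    omega
  have hXH : X ∈ H l j (j - 1) (Nat.sub_le _ _) :=
    mem_of_pow_eq_one hl hm1 hm2 hm (pow_mem hx _) hXl
  rw [mem_H] at hu hXH
  obtain ⟨z, hz⟩ := hu
  obtain ⟨a, ha⟩ := hXH
  have hlj : (l : ZMod (l ^ j)) ^ j = 0 := by rw [← Nat.cast_pow, ZMod.natCast_self]
  have hla : ¬ l ∣ a.val := by
    rintro ⟨b, hb⟩
    apply hX1
    apply Units.ext
    rw [ha, Units.val_one, ← ZMod.natCast_zmod_val a, hb]
    push_cast
    rw [← mul_assoc, ← pow_succ, show j - 1 + 1 = j by omega, hlj, zero_mul, add_zero]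
  -- powers of X
  have hpow : ∀ n : ℕ, ((X ^ n : (ZMod (l ^ j))ˣ) : ZMod (l ^ j)) =
      1 + (l : ZMod (l ^ j)) ^ (j - 1) * (n * a) := by
    intro n
    induction n with
    | zero => simp
    | succ n ih =>
      rw [pow_succ, Units.val_mul, ih, ha]
      have h2 : (l : ZMod (l ^ j)) ^ (j - 1) * (l : ZMod (l ^ j)) ^ (j - 1) = 0 := by
        rw [← pow_add, show j - 1 + (j - 1) = j + (j - 2) by omega, pow_add, hlj, zero_mul]
      push_cast
      linear_combination (n * a * a) * h2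
  -- choose n with n a = z mod l
  have hcop : Nat.Coprime a.val l := by
    rw [Nat.coprime_comm]; exact (Nat.Prime.coprime_iff_not_dvd hl).2 hla
  obtain ⟨n, hn⟩ : ∃ n : ℕ, n * a.val ≡ z.val [MOD l] := by
    obtain ⟨b, hb⟩ := Nat.exists_mul_mod_eq_one_of_coprime hcop hl.one_lt
    refine ⟨z.val * b, ?_⟩
    have : a.val * b ≡ 1 [MOD l] := by
      rw [Nat.ModEq, hb.2, Nat.mod_eq_of_lt hl.one_lt]
    calc z.val * b * a.val = z.val * (a.val * b) := by ring
      _ ≡ z.val * 1 [MOD l] := this.mul_left _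
      _ = z.val := mul_one _
  have hun : u = X ^ n := by
    apply Units.ext
    rw [hpow, hz]
    congr 1
    have h3 : ((l ^ (j - 1) * (n * a.val) : ℕ) : ZMod (l ^ j)) =
        ((l ^ (j - 1) * z.val : ℕ) : ZMod (l ^ j)) := by
      rw [ZMod.natCast_eq_natCast_iff]
      have := hn.mul_left' (l ^ (j - 1))
      rwa [← pow_succ, show j - 1 + 1 = j by omega] at this
    push_cast at h3
    rw [ZMod.natCast_zmod_val, ZMod.natCast_zmod_val] at h3
    exact h3.symm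
  rw [hun, map_pow, hX, map_pow, hχ, one_pow, one_pow]

end units

end Pool.Agent.GP.NV2
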